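import Pool.Agent.Q172.RealCurve.Target

/-! # Chainable continua that map onto the explicit curves -/

set_option autoImplicit false
set_option linter.unusedSectionVars false
set_option linter.unusedVariables false

namespace Q172.RealCurve

open Set Topology Filter Function

/-- `C` is chainable: for every `ε > 0` it is covered by a simple chain of open sets (two links
meet if and only if their indices differ by at most one) of diameter less than `ε`. -/
def Chainable (C : Type*) [MetricSpace C] : Prop :=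
  ∀ ε > (0 : ℝ), ∃ (n : ℕ) (L : Fin n → Set C), (∀ i, IsOpen (L i)) ∧
    (∀ i, Metric.diam (L i) < ε) ∧
    (∀ i j, (L i ∩ L j).Nonempty ↔ |((i : ℕ) : ℤ) - ((j : ℕ) : ℤ)| ≤ 1) ∧ (⋃ i, L i) = univ

/-- A continuum that admits maps into the line with small fibres is chainable. -/
theorem chainable_of_maps {C : Type*} [MetricSpace C] [CompactSpace C] [ConnectedSpace C]
    (h : ∀ ε > (0 : ℝ), ∃ Q : C → ℝ, Continuous Q ∧ ∀ x y, Q x = Q y → dist x y < ε) :
    Chainable C := by
  intro ε hε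
  obtain ⟨Q, hQ, hfib⟩ := h (ε / 2) (by linarith)
  -- a modulus
  obtain ⟨η, hη, hmod⟩ : ∃ η > 0, ∀ x y, |Q x - Q y| < η → dist x y < ε / 2 := by
    have hK : IsCompact {p : C × C | ε / 2 ≤ dist p.1 p.2} :=
      (isClosed_le continuous_const continuous_dist).isCompact
    rcases Set.eq_empty_or_nonempty {p : C × C | ε / 2 ≤ dist p.1 p.2} with he | hne
    · refine ⟨1, one_pos, fun x y _ => ?_⟩
      by_contra hcon
      have : (x, y) ∈ {p : C × C | ε / 2 ≤ dist p.1 p.2} := not_lt.1 hcon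
      rw [he] at this
      exact this
    · obtain ⟨p, hp, hmin⟩ := hK.exists_isMinOn hne (f := fun p : C × C => |Q p.1 - Q p.2|)
        (by fun_prop)
      refine ⟨|Q p.1 - Q p.2|, ?_, fun x y hxy => ?_⟩
      · have : Q p.1 ≠ Q p.2 := fun e => absurd (hfib _ _ e) (not_lt.2 hp)
        exact abs_pos.2 (sub_ne_zero.2 this)
      · by_contra hcon
        have h2 : (x, y) ∈ {p : C × C | ε / 2 ≤ dist p.1 p.2} := not_lt.1 hcon
        exact absurd (hmin h2) (not_le.2 hxy)
  obtain ⟨xa, -, ha⟩ := isCompact_univ.exists_isMinOn (univ_nonempty (α := C)) hQ.continuousOn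
  obtain ⟨xb, -, hb⟩ := isCompact_univ.exists_isMaxOn (univ_nonempty (α := C)) hQ.continuousOn
  set a := Q xa with hadef
  set b := Q xb with hbdef
  have ha' : ∀ x, a ≤ Q x := fun x => ha (mem_univ x)
  have hb' : ∀ x, Q x ≤ b := fun x => hb (mem_univ x)
  have hab : a ≤ b := ha' xb
  have hsurj : ∀ v, a ≤ v → v ≤ b → ∃ x, Q x = v := by
    intro v h1 h2
    obtain ⟨x, -, hx⟩ := isPreconnected_univ.intermediate_value (mem_univ xa) (mem_univ xb)
      hQ.continuousOn ⟨h1, h2⟩
    exact ⟨x, hx⟩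
  set l : ℝ := η / 2 with hl
  have hl0 : 0 < l := by linarith
  set M : ℕ := ⌊(b - a) / l⌋₊ with hM
  have hMl : (M : ℝ) * l ≤ b - a := by
    have := Nat.floor_le (div_nonneg (sub_nonneg.2 hab) hl0.le)
    rwa [le_div_iff₀ hl0] at this
  let L : Fin (M + 1) → Set C := fun i =>
    Q ⁻¹' Ioo (a + (i : ℕ) * l - l / 4) (a + ((i : ℕ) + 1) * l + l / 4)
  refine ⟨M + 1, L, fun i => isOpen_Ioo.preimage hQ, fun i => ?_, fun i j => ?_, ?_⟩
  · refine lt_of_le_of_lt (Metric.diam_le_of_forall_dist_le (C := ε / 2) (by linarith) ?_)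
      (by linarith)
    intro x hx y hy
    refine (hmod x y ?_).le
    have h1 := hx.1
    have h2 := hx.2
    have h3 := hy.1
    have h4 := hy.2
    rw [abs_lt]
    constructor <;> nlinarith
  · have key : ∀ i j : Fin (M + 1), (i : ℕ) < j → ((L i ∩ L j).Nonempty ↔ (j : ℕ) = i + 1) := by
      intro i j hij
      constructor
      · rintro ⟨x, hx, hy⟩
        have h1 := hx.2
        have h2 := hy.1
        have h3 : ((j : ℕ) : ℝ) * l - l / 4 < ((i : ℕ) + 1) * l + l / 4 := by linarith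
        have h4 : (((j : ℕ) : ℝ) - (i : ℕ) - 3 / 2) * l < 0 := by nlinarith
        have h5 : ((j : ℕ) : ℝ) - (i : ℕ) - 3 / 2 < 0 := by
          by_contra hcon
          exact absurd h4 (not_lt.2 (mul_nonneg (not_lt.1 hcon) hl0.le))
        have h6 : ((j : ℕ) : ℝ) < (i : ℕ) + 2 := by linarith
        have h7 : (j : ℕ) < i + 2 := by exact_mod_cast h6
        omega
      · intro hj
        have hjM : (j : ℕ) ≤ M := Nat.lt_succ_iff.1 j.2
        have hjM' : ((j : ℕ) : ℝ) ≤ M := by exact_mod_cast hjM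
        have h1 : (j : ℕ) * l ≤ b - a := (mul_le_mul_of_nonneg_right hjM' hl0.le).trans hMl
        obtain ⟨x, hx⟩ := hsurj (a + (j : ℕ) * l) (by
          have : 0 ≤ ((j : ℕ) : ℝ) * l := by positivity
          linarith) (by linarith)
        have hj' : ((j : ℕ) : ℝ) = (i : ℕ) + 1 := by exact_mod_cast hj
        refine ⟨x, ⟨?_, ?_⟩, ⟨?_, ?_⟩⟩
        · show a + (i : ℕ) * l - l / 4 < Q x
          rw [hx, hj']; nlinarith
        · show Q x < a + ((i : ℕ) + 1) * l + l / 4
          rw [hx, hj']; linarith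
        · show a + (j : ℕ) * l - l / 4 < Q x
          rw [hx]; linarith
        · show Q x < a + ((j : ℕ) + 1) * l + l / 4
          rw [hx]; nlinarith
    rcases lt_trichotomy (i : ℕ) j with hij | hij | hij
    · rw [key i j hij, abs_le]
      constructor <;> intro hh <;> omega
    · have hij' : i = j := Fin.ext hij
      subst hij'
      simp only [inter_self, sub_self, abs_zero, zero_le_one, iff_true]
      have hjM : (i : ℕ) ≤ M := Nat.lt_succ_iff.1 i.2
      have hjM' : ((i : ℕ) : ℝ) ≤ M := by exact_mod_cast hjM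
      have h1 : (i : ℕ) * l ≤ b - a := (mul_le_mul_of_nonneg_right hjM' hl0.le).trans hMl
      obtain ⟨x, hx⟩ := hsurj (a + (i : ℕ) * l) (by
        have : 0 ≤ ((i : ℕ) : ℝ) * l := by positivity
        linarith) (by linarith)
      refine ⟨x, ?_, ?_⟩
      · show a + (i : ℕ) * l - l / 4 < Q x
        rw [hx]; linarith
      · show Q x < a + ((i : ℕ) + 1) * l + l / 4
        rw [hx]; nlinarith
    · rw [inter_comm, key j i hij, abs_le]
      constructor <;> intro hh <;> omega
  · rw [eq_univ_iff_forall]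
    intro x
    have h0 : 0 ≤ (Q x - a) / l := div_nonneg (sub_nonneg.2 (ha' x)) hl0.le
    have hle : ⌊(Q x - a) / l⌋₊ ≤ M := Nat.floor_le_floor
      (div_le_div_of_nonneg_right (sub_le_sub_right (hb' x) a) hl0.le)
    refine mem_iUnion.2 ⟨⟨⌊(Q x - a) / l⌋₊, Nat.lt_succ_of_le hle⟩, ?_⟩
    have h1 := Nat.floor_le h0
    have h2 := Nat.lt_floor_add_one ((Q x - a) / l)
    rw [le_div_iff₀ hl0] at h1
    rw [div_lt_iff₀ hl0] at h2
    constructor
    · show a + (⌊(Q x - a) / l⌋₊ : ℕ) * l - l / 4 < Q x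
      linarith
    · show Q x < a + ((⌊(Q x - a) / l⌋₊ : ℕ) + 1) * l + l / 4
      linarith

/-- The lifted positive end. -/
noncomputable def pp (N : ℕ) (τ : ℝ) : ℝ × ℝ × ℝ :=
  (xx N (max τ 1), rp N (max τ 1), 1 / max τ 1)

theorem continuous_pp (N : ℕ) : Continuous (pp N) := by
  have h1 := continuous_xx N
  have h2 := continuous_rp N
  have h3 : Continuous fun τ : ℝ => 1 / max τ 1 := by
    have h3 : ∀ τ : ℝ, max τ 1 ≠ 0 := fun p =>
        (lt_of_lt_of_le zero_lt_one (le_max_right _ _)).ne'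
    fun_prop (disch := simp_all)
  unfold pp
  fun_prop

/-- The lifted continuum. -/
def CC (N : ℕ) : Set (ℝ × ℝ × ℝ) := closure (range (pp N))

theorem pp_mem (N : ℕ) (τ : ℝ) :
    pp N τ ∈ (Icc (0 : ℝ) N) ×ˢ ((Icc (0 : ℝ) 1) ×ˢ (Icc (0 : ℝ) 1)) := by
  have h : 1 ≤ max τ 1 := le_max_right _ _
  refine ⟨xx_mem N _, rp_mem N h, ?_⟩
  show 1 / max τ 1 ∈ Icc (0 : ℝ) 1
  exact ⟨by positivity, by rw [div_le_one (by linarith)]; exact h⟩

theorem isCompact_CC (N : ℕ) : IsCompact (CC N) :=
  (isCompact_Icc.prod (isCompact_Icc.prod isCompact_Icc)).closure_of_subset (by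
    rintro _ ⟨τ, rfl⟩
    exact pp_mem N τ)

theorem isConnected_CC (N : ℕ) : IsConnected (CC N) :=
  (isConnected_range (continuous_pp N)).closure

end Q172.RealCurve
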