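import Pool.Agent.Q172.RealCurve.Wind

/-! # The explicit curves -/

set_option autoImplicit false
set_option linter.unusedSectionVars false
set_option linter.unusedVariables false

namespace Q172.RealCurve

open Set Topology Filter Function

/-- The point of the unit circle with angle `2πx`. -/
noncomputable def ee (x : ℝ) : ℂ := Complex.exp ((2 * Real.pi * x : ℝ) * Complex.I)

theorem continuous_ee : Continuous ee := by unfold ee; fun_prop

theorem ee_add_int (x : ℝ) (n : ℤ) : ee (x + n) = ee x := by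
  unfold ee
  rw [Complex.exp_eq_exp_iff_exists_int]
  exact ⟨n, by push_cast; ring⟩

theorem ee_inj {x y : ℝ} (h : ee x = ee y) (hx : x ∈ Ioc (0 : ℝ) 1) (hy : y ∈ Ioc (0 : ℝ) 1) :
    x = y := by
  unfold ee at h
  rw [Complex.exp_eq_exp_iff_exists_int] at h
  obtain ⟨n, hn⟩ := h
  have hpi : (Real.pi : ℂ) ≠ 0 := by exact_mod_cast Real.pi_ne_zero
  have h1 : (x : ℂ) = y + n := by
    push_cast at hn
    have h2 : (2 * (Real.pi : ℂ) * Complex.I) * x = (2 * (Real.pi : ℂ) * Complex.I) * (y + n) := by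
      linear_combination hn
    exact mul_left_cancel₀ (by simp [hpi]) h2
  have h3 : x = y + n := by exact_mod_cast h1
  have h4 : n = 0 := by
    have h5 : (n : ℝ) < 1 := by linarith [hx.2, hy.1]
    have h6 : (-1 : ℝ) < n := by linarith [hx.1, hy.2]
    have h7 : n < 1 := by exact_mod_cast h5
    have h8 : -1 < n := by exact_mod_cast h6
    omega
  rw [h3, h4]; simp

theorem ee_zero : ee 0 = 1 := by simp [ee]

theorem ee_one : ee 1 = 1 := by
  have := ee_add_int 0 1
  simpa [ee_zero] using this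

/-- The oscillation. -/
noncomputable def rho (w : ℝ) : ℝ := Real.sin (Real.pi / w) ^ 2

theorem rho_mem (w : ℝ) : rho w ∈ Icc (0 : ℝ) 1 := ⟨sq_nonneg _, Real.sin_sq_le_one _⟩

/-- The truncated oscillation. -/
noncomputable def trunc (τ y : ℝ) : ℝ := rho (max y (1 / τ)) * min 1 (τ * y)

/-- The horizontal motion of the positive end. -/
noncomputable def xx (N : ℕ) (τ : ℝ) : ℝ := N * (1 - Real.cos (Real.pi * (τ - 1))) / 2

theorem continuous_xx (N : ℕ) : Continuous (xx N) := by unfold xx; fun_prop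

theorem xx_mem (N : ℕ) (τ : ℝ) : xx N τ ∈ Icc (0 : ℝ) N := by
  have h1 := Real.neg_one_le_cos (Real.pi * (τ - 1))
  have h2 := Real.cos_le_one (Real.pi * (τ - 1))
  have h3 : (0 : ℝ) ≤ N := Nat.cast_nonneg N
  unfold xx
  constructor
  · have : 0 ≤ (N : ℝ) * (1 - Real.cos (Real.pi * (τ - 1))) := mul_nonneg h3 (by linarith)
    linarith
  · have : (N : ℝ) * (1 - Real.cos (Real.pi * (τ - 1))) ≤ N * 2 :=
      mul_le_mul_of_nonneg_left (by linarith) h3
    linarith

theorem xx_odd (N k : ℕ) : xx N (1 + 2 * k) = 0 := by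
  unfold xx
  have : Real.pi * (1 + 2 * (k : ℝ) - 1) = k * (2 * Real.pi) := by ring
  rw [this, Real.cos_nat_mul_two_pi]
  simp

theorem xx_even (N k : ℕ) : xx N (2 + 2 * k) = N := by
  unfold xx
  have : Real.pi * (2 + 2 * (k : ℝ) - 1) = k * (2 * Real.pi) + Real.pi := by ring
  rw [this, Real.cos_nat_mul_two_pi_add_pi]
  ring

/-- The vertical coordinate of the positive end before it is lifted. -/
noncomputable def pr (N : ℕ) (τ : ℝ) : ℝ := trunc τ (Int.fract (xx N τ))

/-- The vertical coordinate of the positive end. -/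
noncomputable def rp (N : ℕ) (τ : ℝ) : ℝ := pr N τ + (1 - pr N τ) / τ

theorem trunc_mem {τ y : ℝ} (hτ : 1 ≤ τ) (hy : 0 ≤ y) : trunc τ y ∈ Icc (0 : ℝ) 1 := by
  have h1 := rho_mem (max y (1 / τ))
  have h2 : 0 ≤ min 1 (τ * y) := le_min zero_le_one (by positivity)
  have h3 : min 1 (τ * y) ≤ 1 := min_le_left _ _
  exact ⟨mul_nonneg h1.1 h2, by
    calc rho (max y (1 / τ)) * min 1 (τ * y) ≤ 1 * 1 := mul_le_mul h1.2 h3 h2 zero_le_one
      _ = 1 := one_mul 1⟩

theorem trunc_eq {τ y : ℝ} (hτ : 1 ≤ τ) (hy : 1 / τ ≤ y) : trunc τ y = rho y := by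
  unfold trunc
  have h0 : 0 < τ := by linarith
  rw [max_eq_left hy, min_eq_left, mul_one]
  rw [div_le_iff₀ h0] at hy
  linarith

theorem trunc_zero (τ : ℝ) : trunc τ 0 = 0 := by simp [trunc]

theorem rho_one : rho 1 = 0 := by simp [rho]

theorem trunc_one {τ : ℝ} (hτ : 1 ≤ τ) : trunc τ 1 = 0 := by
  rw [trunc_eq hτ (by rw [div_le_one (by linarith)]; exact hτ), rho_one]

theorem continuous_pr (N : ℕ) : Continuous fun τ => pr N (max τ 1) := by
  have h := ContinuousOn.comp_fract (s := fun τ => xx N (max τ 1))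
    (f := fun τ y => trunc (max τ 1) y) (by
      have : Continuous fun p : ℝ × ℝ => (max p.1 1) := by fun_prop
      have h1 : ∀ p : ℝ × ℝ, max p.2 (1 / max p.1 1) ≠ 0 := by
        intro p
        have h2 : 0 < 1 / max p.1 1 := by
          have : 1 ≤ max p.1 1 := le_max_right _ _
          positivity
        exact (lt_of_lt_of_le h2 (le_max_right _ _)).ne'
      have h3 : ∀ p : ℝ × ℝ, max p.1 1 ≠ 0 := fun p =>
        (lt_of_lt_of_le zero_lt_one (le_max_right _ _)).ne'
      apply Continuous.continuousOn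
      simp only [Function.uncurry_def, trunc, rho]
      fun_prop (disch := simp_all)) (by
      have := continuous_xx N
      fun_prop) (by
      intro τ
      rw [trunc_zero, trunc_one (le_max_right _ _)])
  exact h

theorem pr_mem (N : ℕ) {τ : ℝ} (hτ : 1 ≤ τ) : pr N τ ∈ Icc (0 : ℝ) 1 :=
  trunc_mem hτ (Int.fract_nonneg _)

theorem rp_mem (N : ℕ) {τ : ℝ} (hτ : 1 ≤ τ) : rp N τ ∈ Icc (0 : ℝ) 1 := by
  have h1 := pr_mem N hτ
  have h2 : 0 < 1 / τ := by positivity
  have h3 : 1 / τ ≤ 1 := by rw [div_le_one (by linarith)]; exact hτ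
  unfold rp
  rw [div_eq_mul_one_div]
  constructor
  · have := mul_nonneg (sub_nonneg.2 h1.2) h2.le
    linarith [h1.1]
  · have := mul_le_mul_of_nonneg_left h3 (sub_nonneg.2 h1.2)
    linarith

theorem rp_one (N : ℕ) : rp N 1 = 1 := by simp [rp]

theorem continuous_rp (N : ℕ) : Continuous fun τ => rp N (max τ 1) := by
  have h := continuous_pr N
  have h3 : ∀ τ : ℝ, max τ 1 ≠ 0 := fun p =>
        (lt_of_lt_of_le zero_lt_one (le_max_right _ _)).ne'
  unfold rp
  fun_prop (disch := simp_all)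

/-- The angle. -/
noncomputable def th (N : ℕ) (τ : ℝ) : ℝ := (1 / (1 - min τ 0) - 1) + xx N (max τ 1)

/-- The vertical coordinate. -/
noncomputable def rr (N : ℕ) (τ : ℝ) : ℝ :=
  Real.sin (Real.pi * min τ 0) ^ 2 + max 0 (min τ 1) + (rp N (max τ 1) - 1)

/-- The curve. -/
noncomputable def hh (N : ℕ) (τ : ℝ) : ℂ × ℝ × ℂ := (ee (th N τ), rr N τ, ee (1 / max τ 1))

theorem xx_one (N : ℕ) : xx N 1 = 0 := by simp [xx]

theorem th_of_nonpos (N : ℕ) {τ : ℝ} (h : τ ≤ 0) : th N τ = 1 / (1 - τ) - 1 := by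
  unfold th; rw [min_eq_left h, max_eq_right (by linarith), xx_one, add_zero]

theorem th_of_mid (N : ℕ) {τ : ℝ} (h : τ ∈ Icc (0 : ℝ) 1) : th N τ = 0 := by
  unfold th; rw [min_eq_right h.1, max_eq_right h.2, xx_one]; simp

theorem th_of_ge (N : ℕ) {τ : ℝ} (h : 1 ≤ τ) : th N τ = xx N τ := by
  unfold th; rw [min_eq_right (by linarith), max_eq_left h]; simp

theorem rr_of_nonpos (N : ℕ) {τ : ℝ} (h : τ ≤ 0) : rr N τ = Real.sin (Real.pi * τ) ^ 2 := by
  unfold rr; rw [min_eq_left h, max_eq_right (by linarith : τ ≤ 1), rp_one,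
    min_eq_left (by linarith : τ ≤ 1), max_eq_left h]; ring

theorem rr_of_mid (N : ℕ) {τ : ℝ} (h : τ ∈ Icc (0 : ℝ) 1) : rr N τ = τ := by
  unfold rr; rw [min_eq_right h.1, max_eq_right h.2, rp_one,
    min_eq_left h.2, max_eq_right h.1]; simp

theorem rr_of_ge (N : ℕ) {τ : ℝ} (h : 1 ≤ τ) : rr N τ = rp N τ := by
  unfold rr; rw [min_eq_right (by linarith : (0:ℝ) ≤ τ), max_eq_left h,
    min_eq_right h, max_eq_right zero_le_one]; simp

theorem continuous_th (N : ℕ) : Continuous (th N) := by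
  have h1 := continuous_xx N
  have h2 : ∀ τ : ℝ, 1 - min τ 0 ≠ 0 := fun τ => by
    have := min_le_right τ 0
    intro h
    linarith
  unfold th
  fun_prop (disch := simp_all)

theorem continuous_rr (N : ℕ) : Continuous (rr N) := by
  have h1 := continuous_rp N
  unfold rr
  fun_prop

theorem continuous_hh (N : ℕ) : Continuous (hh N) := by
  have h1 := continuous_th N
  have h2 := continuous_rr N
  have h3 : Continuous fun τ : ℝ => 1 / max τ 1 := by
    have h3 : ∀ τ : ℝ, max τ 1 ≠ 0 := fun p =>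
        (lt_of_lt_of_le zero_lt_one (le_max_right _ _)).ne'
    fun_prop (disch := simp_all)
  exact (continuous_ee.comp h1).prodMk (h2.prodMk (continuous_ee.comp h3))

theorem inj_hh (N : ℕ) : Injective (hh N) := by
  intro a b hab
  simp only [hh, Prod.mk.injEq] at hab
  obtain ⟨h1, h2, h3⟩ := hab
  have hmem : ∀ t : ℝ, 1 / max t 1 ∈ Ioc (0 : ℝ) 1 := by
    intro t
    have h : 1 ≤ max t 1 := le_max_right _ _
    exact ⟨by positivity, by rw [div_le_one (by linarith)]; exact h⟩
  have h4 := ee_inj h3 (hmem a) (hmem b)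
  have h5 : max a 1 = max b 1 := by
    rw [one_div, one_div] at h4
    exact inv_injective h4
  rcases lt_or_ge 1 a with ha | ha
  · rcases lt_or_ge 1 b with hb | hb
    · rwa [max_eq_left ha.le, max_eq_left hb.le] at h5
    · rw [max_eq_left ha.le, max_eq_right hb] at h5
      linarith
  · rcases lt_or_ge 1 b with hb | hb
    · rw [max_eq_right ha, max_eq_left hb.le] at h5
      linarith
    · -- both at most one
      have hm : ∀ t : ℝ, t ≤ 1 → th N t = 1 / (1 - min t 0) - 1 := by
        intro t ht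
        unfold th; rw [max_eq_right ht, xx_one, add_zero]
      rw [hm a ha, hm b hb] at h1
      have hmem' : ∀ t : ℝ, 1 / (1 - min t 0) ∈ Ioc (0 : ℝ) 1 := by
        intro t
        have h : 1 ≤ 1 - min t 0 := by linarith [min_le_right t 0]
        exact ⟨by positivity, by rw [div_le_one (by linarith)]; exact h⟩
      have h6 : ee (1 / (1 - min a 0)) = ee (1 / (1 - min b 0)) := by
        have e1 := ee_add_int (1 / (1 - min a 0) - 1) 1
        have e2 := ee_add_int (1 / (1 - min b 0) - 1) 1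
        simp only [Int.cast_one, sub_add_cancel] at e1 e2
        rw [e1, e2, h1]
      have h7 := ee_inj h6 (hmem' a) (hmem' b)
      have h8 : min a 0 = min b 0 := by
        rw [one_div, one_div] at h7
        linarith [inv_injective h7]
      rcases lt_or_ge a 0 with ha0 | ha0
      · rcases lt_or_ge b 0 with hb0 | hb0
        · rwa [min_eq_left ha0.le, min_eq_left hb0.le] at h8
        · rw [min_eq_left ha0.le, min_eq_right hb0] at h8
          linarith
      · rcases lt_or_ge b 0 with hb0 | hb0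
        · rw [min_eq_right ha0, min_eq_left hb0.le] at h8
          linarith
        · rwa [rr_of_mid N ⟨ha0, ha⟩, rr_of_mid N ⟨hb0, hb⟩] at h2

end Q172.RealCurve
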