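import Pool.Agent.Q172.RealCurve.Chain

/-! # Maps with small fibres on the lifted continua -/

set_option autoImplicit false
set_option linter.unusedSectionVars false
set_option linter.unusedVariables false

namespace Q172.RealCurve

open Set Topology Filter Function

/-- The map that runs through the bars and the graphs. -/
noncomputable def QQ (δ η : ℝ) (p : ℝ × ℝ × ℝ) : ℝ :=
  if Int.fract p.1 ≤ δ then 2 * (⌊p.1⌋ : ℝ) + max 0 ((p.2.1 - η) / (1 - η))
  else 2 * (⌊p.1⌋ : ℝ) + 1 + (Int.fract p.1 - δ) / (1 - δ)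

/-- The part near a bar. -/
def AA (δ z₀ : ℝ) (k : ℕ) : Set (ℝ × ℝ × ℝ) :=
  {p | p.1 ∈ Icc (k : ℝ) (k + δ) ∧ p.2.1 ∈ Icc (0 : ℝ) 1 ∧ p.2.2 ∈ Icc (0 : ℝ) z₀}

/-- The part between two bars. -/
def BB (δ z₀ : ℝ) (k : ℕ) : Set (ℝ × ℝ × ℝ) :=
  {p | p.1 ∈ Icc (k + δ : ℝ) (k + 1) ∧
    p.2.1 = rho (max (p.1 - k) δ) + (1 - rho (max (p.1 - k) δ)) * p.2.2 ∧
    p.2.2 ∈ Icc (0 : ℝ) z₀}

theorem isClosed_AA (δ z₀ : ℝ) (k : ℕ) : IsClosed (AA δ z₀ k) := by
  have h1 : IsClosed {p : ℝ × ℝ × ℝ | p.1 ∈ Icc (k : ℝ) (k + δ)} :=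
    isClosed_Icc.preimage (f := fun p : ℝ × ℝ × ℝ => p.1) continuous_fst
  have h2 : IsClosed {p : ℝ × ℝ × ℝ | p.2.1 ∈ Icc (0 : ℝ) 1} :=
    isClosed_Icc.preimage (f := fun p : ℝ × ℝ × ℝ => p.2.1) (by fun_prop)
  have h3 : IsClosed {p : ℝ × ℝ × ℝ | p.2.2 ∈ Icc (0 : ℝ) z₀} :=
    isClosed_Icc.preimage (f := fun p : ℝ × ℝ × ℝ => p.2.2) (by fun_prop)
  exact h1.inter (h2.inter h3)

theorem continuous_rho_max {δ : ℝ} (hδ : 0 < δ) (c : ℝ) :
    Continuous fun x : ℝ => rho (max (x - c) δ) := by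
  have : ∀ x : ℝ, max (x - c) δ ≠ 0 := fun x => (lt_of_lt_of_le hδ (le_max_right _ _)).ne'
  unfold rho
  fun_prop (disch := simp_all)

theorem isClosed_BB {δ : ℝ} (hδ : 0 < δ) (z₀ : ℝ) (k : ℕ) : IsClosed (BB δ z₀ k) := by
  have h1 : IsClosed {p : ℝ × ℝ × ℝ | p.1 ∈ Icc (k + δ : ℝ) (k + 1)} :=
    isClosed_Icc.preimage (f := fun p : ℝ × ℝ × ℝ => p.1) continuous_fst
  have h0 : Continuous fun p : ℝ × ℝ × ℝ => rho (max (p.1 - k) δ) :=
    (continuous_rho_max hδ k).comp continuous_fst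
  have h2 : IsClosed {p : ℝ × ℝ × ℝ |
      p.2.1 = rho (max (p.1 - k) δ) + (1 - rho (max (p.1 - k) δ)) * p.2.2} :=
    isClosed_eq (by fun_prop) (by fun_prop)
  have h3 : IsClosed {p : ℝ × ℝ × ℝ | p.2.2 ∈ Icc (0 : ℝ) z₀} :=
    isClosed_Icc.preimage (f := fun p : ℝ × ℝ × ℝ => p.2.2) (by fun_prop)
  exact h1.inter (h2.inter h3)

/-- Parameters. -/
structure Par (δ η z₀ : ℝ) : Prop where
  δ0 : 0 < δ
  δ1 : δ < 1
  η0 : 0 < η
  η1 : η < 1
  z0 : z₀ ≤ η
  rδ : rho δ = 1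

variable {δ η z₀ : ℝ}

theorem floor_fract {x : ℝ} {k : ℕ} (h1 : (k : ℝ) ≤ x) (h2 : x < k + 1) :
    (⌊x⌋ : ℝ) = k ∧ Int.fract x = x - k := by
  have : ⌊x⌋ = (k : ℤ) := by rw [Int.floor_eq_iff]; exact ⟨by exact_mod_cast h1, by exact_mod_cast h2⟩
  refine ⟨by rw [this]; simp, ?_⟩
  unfold Int.fract
  rw [this]; simp

theorem QQ_AA (P : Par δ η z₀) {k : ℕ} {p : ℝ × ℝ × ℝ} (hp : p ∈ AA δ z₀ k) :
    QQ δ η p = 2 * k + max 0 ((p.2.1 - η) / (1 - η)) := by
  obtain ⟨h1, h2⟩ := floor_fract hp.1.1 (by linarith [hp.1.2, P.δ1])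
  unfold QQ
  rw [if_pos (by rw [h2]; linarith [hp.1.2]), h1]

theorem QQ_BB (P : Par δ η z₀) {k : ℕ} {p : ℝ × ℝ × ℝ} (hp : p ∈ BB δ z₀ k) :
    QQ δ η p = 2 * k + 1 + (p.1 - k - δ) / (1 - δ) := by
  have hδ0 := P.δ0
  have hδ1 := P.δ1
  have hη1 := P.η1
  rcases eq_or_lt_of_le hp.1.1 with h | h
  · -- left end
    obtain ⟨h1, h2⟩ := floor_fract (x := p.1) (k := k) (by linarith) (by linarith)
    have h3 : p.2.1 = 1 := by
      rw [hp.2.1]
      have : max (p.1 - k) δ = δ := max_eq_right (by linarith)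
      rw [this, P.rδ]; ring
    have h4 : (1 - η) / (1 - η) = 1 := div_self (by linarith)
    unfold QQ
    rw [if_pos (by rw [h2]; linarith), h1, h3, h4, ← h]
    norm_num
  · rcases eq_or_lt_of_le hp.1.2 with h' | h'
    · -- right end
      obtain ⟨h1, h2⟩ := floor_fract (x := p.1) (k := k + 1) (by rw [h']; push_cast; linarith)
        (by rw [h']; push_cast; linarith)
      have h3 : p.2.1 = p.2.2 := by
        rw [hp.2.1]
        have : max (p.1 - k) δ = 1 := by rw [h']; rw [max_eq_left (by linarith)]; ring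
        rw [this, rho_one]; ring
      have h4 : (p.2.2 - η) / (1 - η) ≤ 0 :=
        div_nonpos_of_nonpos_of_nonneg (by linarith [hp.2.2.2, P.z0]) (by linarith)
      have h5 : (p.1 - k - δ) / (1 - δ) = 1 := by
        rw [h']
        rw [div_eq_one_iff_eq (by linarith)]
        ring
      unfold QQ
      rw [if_pos (by rw [h2, h']; push_cast; linarith), h1, h3, max_eq_left h4, h5]
      push_cast
      ring
    · obtain ⟨h1, h2⟩ := floor_fract (x := p.1) (k := k) (by linarith) h'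
      unfold QQ
      rw [if_neg (by rw [h2]; linarith), h1, h2]

/-- The tail region. -/
def FF (δ z₀ : ℝ) (N : ℕ) : Set (ℝ × ℝ × ℝ) := ⋃ k : Fin N, (AA δ z₀ k ∪ BB δ z₀ k)

theorem isClosed_FF (hδ : 0 < δ) (N : ℕ) : IsClosed (FF δ z₀ N) :=
  isClosed_iUnion_of_finite fun k => (isClosed_AA δ z₀ k).union (isClosed_BB hδ z₀ k)

theorem continuousOn_QQ (P : Par δ η z₀) (N : ℕ) : ContinuousOn (QQ δ η) (FF δ z₀ N) := by
  refine LocallyFinite.continuousOn_iUnion (locallyFinite_of_finite _)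
    (fun k => (isClosed_AA δ z₀ k).union (isClosed_BB P.δ0 z₀ k)) fun k => ?_
  refine ContinuousOn.union_of_isClosed ?_ ?_ (isClosed_AA δ z₀ k) (isClosed_BB P.δ0 z₀ k)
  · have h : Continuous fun p : ℝ × ℝ × ℝ =>
        2 * ((k : ℕ) : ℝ) + max 0 ((p.2.1 - η) / (1 - η)) := by fun_prop
    exact h.continuousOn.congr fun p hp => QQ_AA P hp
  · have h : Continuous fun p : ℝ × ℝ × ℝ =>
        2 * ((k : ℕ) : ℝ) + 1 + (p.1 - (k : ℕ) - δ) / (1 - δ) := by fun_prop
    exact h.continuousOn.congr fun p hp => QQ_BB P hp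

/-- The decoding of the horizontal coordinate. -/
noncomputable def dX (δ : ℝ) (v : ℝ) : ℝ :=
  if v - 2 * ⌊v / 2⌋ ≤ 1 then ⌊v / 2⌋ else ⌊v / 2⌋ + δ + (v - 2 * ⌊v / 2⌋ - 1) * (1 - δ)

/-- The decoding of the vertical coordinate. -/
noncomputable def dR (δ : ℝ) (v : ℝ) : ℝ :=
  if v - 2 * ⌊v / 2⌋ ≤ 1 then v - 2 * ⌊v / 2⌋ else rho (max (dX δ v - ⌊v / 2⌋) δ)

theorem floor_half {v : ℝ} {k : ℕ} (h1 : 2 * (k : ℝ) ≤ v) (h2 : v < 2 * k + 2) :
    (⌊v / 2⌋ : ℝ) = k := by
  have : ⌊v / 2⌋ = (k : ℤ) := by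
    rw [Int.floor_eq_iff]
    push_cast
    constructor <;> linarith
  rw [this]; simp

theorem decode (P : Par δ η z₀) {N : ℕ} {p : ℝ × ℝ × ℝ} (hp : p ∈ FF δ z₀ N) :
    QQ δ η p ≤ 2 * N ∧ |p.1 - dX δ (QQ δ η p)| ≤ δ ∧ |p.2.1 - dR δ (QQ δ η p)| ≤ η := by
  have hδ0 := P.δ0
  have hδ1 := P.δ1
  have hη1 := P.η1
  have hη0 := P.η0
  obtain ⟨k, hk⟩ := mem_iUnion.1 hp
  have hkN : ((k : ℕ) : ℝ) + 1 ≤ N := by
    have : (k : ℕ) + 1 ≤ N := k.2
    exact_mod_cast this
  rcases hk with hk | hk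
  · have hv := QQ_AA P hk
    set s : ℝ := max 0 ((p.2.1 - η) / (1 - η)) with hs
    have hs0 : 0 ≤ s := le_max_left _ _
    have hs1 : s ≤ 1 := by
      refine max_le zero_le_one ?_
      rw [div_le_one (by linarith)]
      linarith [hk.2.1.2]
    have hfl := floor_half (v := QQ δ η p) (k := k) (by linarith) (by linarith)
    refine ⟨by linarith, ?_, ?_⟩
    · unfold dX
      rw [hfl, if_pos (by rw [hv]; linarith), abs_le]
      constructor <;> linarith [hk.1.1, hk.1.2]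
    · unfold dR
      rw [hfl, if_pos (by rw [hv]; linarith), hv]
      have h1 : p.2.1 - (2 * ((k : ℕ) : ℝ) + s - 2 * (k : ℕ)) = p.2.1 - s := by ring
      rw [h1]
      rcases le_total p.2.1 η with h | h
      · have h2 : s = 0 := max_eq_left
          (div_nonpos_of_nonpos_of_nonneg (by linarith) (by linarith))
        rw [h2, sub_zero, abs_le]
        constructor <;> linarith [hk.2.1.1]
      · have h2 : s = (p.2.1 - η) / (1 - η) := max_eq_right
          (div_nonneg (by linarith) (by linarith))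
        have h3 : p.2.1 - s = η * (1 - p.2.1) / (1 - η) := by
          have h5 : (1 - η) ≠ 0 := by linarith
          rw [h2, eq_div_iff h5, sub_mul, div_mul_cancel₀ _ h5]
          ring
        rw [h3, abs_le]
        have h4 : 0 ≤ η * (1 - p.2.1) / (1 - η) :=
          div_nonneg (mul_nonneg hη0.le (by linarith [hk.2.1.2])) (by linarith)
        refine ⟨by linarith, ?_⟩
        rw [div_le_iff₀ (by linarith)]
        exact mul_le_mul_of_nonneg_left (by linarith) hη0.le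
  · have hv := QQ_BB P hk
    set t : ℝ := (p.1 - (k : ℕ) - δ) / (1 - δ) with ht
    have ht0 : 0 ≤ t := div_nonneg (by linarith [hk.1.1]) (by linarith)
    have ht1 : t ≤ 1 := by rw [ht, div_le_one (by linarith)]; linarith [hk.1.2]
    have htx : p.1 = (k : ℕ) + δ + t * (1 - δ) := by
      rw [ht, div_mul_cancel₀ _ (by linarith)]; ring
    refine ⟨by linarith, ?_⟩
    rcases eq_or_lt_of_le ht1 with h1 | h1
    · -- right end
      rw [h1] at hv htx
      have hv' : QQ δ η p = 2 * (((k : ℕ) + 1 : ℕ) : ℝ) := by rw [hv]; push_cast; ring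
      have hx : p.1 = (k : ℕ) + 1 := by rw [htx]; ring
      have hfl := floor_half (v := QQ δ η p) (k := (k : ℕ) + 1) (by linarith) (by linarith)
      have h3 : p.2.1 = p.2.2 := by
        rw [hk.2.1]
        have : max (p.1 - (k : ℕ)) δ = 1 := by
          rw [hx, max_eq_left (by linarith)]; ring
        rw [this, rho_one]; ring
      constructor
      · unfold dX
        rw [hfl, if_pos (by rw [hv']; linarith), hx]
        push_cast
        simp [hδ0.le]
      · unfold dR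
        rw [hfl, if_pos (by rw [hv']; linarith), hv', h3, sub_self, sub_zero, abs_le]
        constructor <;> linarith [hk.2.2.1, hk.2.2.2, P.z0]
    · have hfl := floor_half (v := QQ δ η p) (k := k) (by linarith) (by linarith)
      rcases eq_or_lt_of_le ht0 with h2 | h2
      · -- left end
        rw [← h2] at hv htx
        have hx : p.1 = (k : ℕ) + δ := by rw [htx]; ring
        have h3 : p.2.1 = 1 := by
          rw [hk.2.1]
          have : max (p.1 - (k : ℕ)) δ = δ := max_eq_right (by linarith)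
          rw [this, P.rδ]; ring
        constructor
        · unfold dX
          rw [hfl, if_pos (by rw [hv]; linarith), hx]
          simp [abs_of_pos hδ0]
        · unfold dR
          rw [hfl, if_pos (by rw [hv]; linarith), hv, h3]
          have : (1 : ℝ) - (2 * ((k : ℕ) : ℝ) + 1 + 0 - 2 * (k : ℕ)) = 0 := by ring
          rw [this]; simp [hη0.le]
      · have hX : dX δ (QQ δ η p) = p.1 := by
          unfold dX
          rw [hfl, if_neg (by rw [hv]; linarith), hv, htx]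
          ring
        constructor
        · rw [hX]; simp [hδ0.le]
        · unfold dR
          rw [if_neg (by rw [hfl, hv]; linarith), hX, hfl, hk.2.1]
          have h3 := rho_mem (max (p.1 - (k : ℕ)) δ)
          have h4 : rho (max (p.1 - (k : ℕ)) δ) + (1 - rho (max (p.1 - (k : ℕ)) δ)) * p.2.2 -
              rho (max (p.1 - (k : ℕ)) δ) = (1 - rho (max (p.1 - (k : ℕ)) δ)) * p.2.2 := by ring
          rw [h4, abs_of_nonneg (mul_nonneg (by linarith [h3.2]) hk.2.2.1)]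
          calc (1 - rho (max (p.1 - (k : ℕ)) δ)) * p.2.2 ≤ 1 * p.2.2 :=
                mul_le_mul_of_nonneg_right (by linarith [h3.1]) hk.2.2.1
            _ ≤ η := by linarith [hk.2.2.2, P.z0]

/-- The tail of the lifted ray lies in the tail region. -/
theorem pp_tail {N : ℕ} (hN : 1 ≤ N) (P : Par δ η z₀) {τ : ℝ} (hτ1 : 1 ≤ τ) (hτ : 1 / τ ≤ z₀)
    (hτδ : 1 / τ ≤ δ) : pp N τ ∈ FF δ z₀ N := by
  have hδ0 := P.δ0
  have hδ1 := P.δ1
  have hpp : pp N τ = (xx N τ, rp N τ, 1 / τ) := by unfold pp; rw [max_eq_left hτ1]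
  have hτ0 : 0 < 1 / τ := by positivity
  have hx := xx_mem N τ
  have hr := rp_mem N hτ1
  have hrp : rp N τ = pr N τ + (1 - pr N τ) * (1 / τ) := by
    unfold rp; rw [div_eq_mul_one_div (1 - pr N τ) τ]
  rw [hpp]
  rcases eq_or_lt_of_le hx.2 with h | h
  · -- the right end
    obtain ⟨M, rfl⟩ : ∃ M, N = M + 1 := ⟨N - 1, by omega⟩
    refine mem_iUnion.2 ⟨⟨M, Nat.lt_succ_self M⟩, Or.inr ⟨?_, ?_, hτ0.le, hτ⟩⟩
    · constructor
      · show (M : ℝ) + δ ≤ xx (M + 1) τ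
        rw [h]; push_cast; linarith
      · show xx (M + 1) τ ≤ (M : ℝ) + 1
        rw [h]; push_cast; linarith
    · have h1 : pr (M + 1) τ = 0 := by
        unfold pr
        rw [h, Int.fract_natCast, trunc_zero]
      have h2 : max (((M + 1 : ℕ) : ℝ) - (M : ℕ)) δ = 1 := by
        push_cast
        rw [max_eq_left (by linarith)]; ring
      show rp (M + 1) τ = rho (max (xx (M + 1) τ - (M : ℕ)) δ) +
        (1 - rho (max (xx (M + 1) τ - (M : ℕ)) δ)) * (1 / τ)
      rw [hrp, h1, h, h2, rho_one]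
  · obtain ⟨k, hk⟩ : ∃ k : ℕ, ⌊xx N τ⌋ = (k : ℤ) := ⟨_, (Int.toNat_of_nonneg (Int.floor_nonneg.2 hx.1)).symm⟩
    have hk1 : (k : ℝ) ≤ xx N τ := by
      have := Int.floor_le (xx N τ)
      rw [hk] at this; exact_mod_cast this
    have hk2 : xx N τ < k + 1 := by
      have := Int.lt_floor_add_one (xx N τ)
      rw [hk] at this; exact_mod_cast this
    have hkN : k < N := by
      have : (k : ℝ) < N := lt_of_le_of_lt hk1 h
      exact_mod_cast this
    refine mem_iUnion.2 ⟨⟨k, hkN⟩, ?_⟩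
    rcases le_total (xx N τ) (k + δ) with h1 | h1
    · exact Or.inl ⟨⟨hk1, h1⟩, hr, hτ0.le, hτ⟩
    · refine Or.inr ⟨⟨h1, hk2.le⟩, ?_, hτ0.le, hτ⟩
      have h2 : pr N τ = rho (max (xx N τ - k) δ) := by
        unfold pr
        rw [(floor_fract hk1 hk2).2, trunc_eq hτ1 (by linarith), max_eq_left (by linarith)]
      show rp N τ = rho (max (xx N τ - k) δ) + (1 - rho (max (xx N τ - k) δ)) * (1 / τ)
      rw [hrp, h2]

/-- The total map. -/
noncomputable def QT (δ η z₀ : ℝ) (N : ℕ) (p : ℝ × ℝ × ℝ) : ℝ :=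
  if p.2.2 ≤ z₀ then QQ δ η p else 2 * N + (p.2.2 - z₀)

theorem exists_emap {N : ℕ} (hN : 1 ≤ N) {ε : ℝ} (hε : 0 < ε) :
    ∃ Q : ℝ × ℝ × ℝ → ℝ, ContinuousOn Q (CC N) ∧
      ∀ p ∈ CC N, ∀ q ∈ CC N, Q p = Q q → dist p q < ε := by
  -- choose the parameters
  set η : ℝ := min (ε / 3) (1 / 2) with hη
  have hη0 : 0 < η := lt_min (by linarith) (by norm_num)
  have hη1 : η < 1 := lt_of_le_of_lt (min_le_right _ _) (by norm_num)
  have hηε : 2 * η < ε := by linarith [min_le_left (ε / 3) (1 / 2 : ℝ)]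
  obtain ⟨n, hn⟩ := exists_nat_gt (1 / η)
  have hnpos : (0 : ℝ) < n := lt_trans (by positivity) hn
  set δ : ℝ := 1 / (n + 1 / 2) with hδ
  have hδ0 : 0 < δ := by positivity
  have hδη : δ < η := by
    rw [hδ, div_lt_iff₀ (by linarith)]
    rw [div_lt_iff₀ hη0] at hn
    nlinarith
  have hrδ : rho δ = 1 := by
    unfold rho
    have : Real.pi / δ = Real.pi / 2 + n * Real.pi := by rw [hδ]; field_simp; ring
    rw [this, Real.sin_add_nat_mul_pi]
    rw [Real.sin_pi_div_two, mul_one, ← pow_mul, mul_comm, pow_mul]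
    simp
  obtain ⟨m, hm⟩ := exists_nat_gt (1 / δ)
  have hmpos : (0 : ℝ) < m := lt_trans (by positivity) hm
  set τ₀ : ℝ := 2 + 2 * m with hτ₀
  have hτ₀1 : 1 ≤ τ₀ := by linarith
  set z₀ : ℝ := 1 / τ₀ with hz₀
  have hz₀0 : 0 < z₀ := by positivity
  have hz₀δ : z₀ ≤ δ := by
    rw [hz₀, div_le_iff₀ (by linarith)]
    rw [div_lt_iff₀ hδ0] at hm
    nlinarith
  have P : Par δ η z₀ := ⟨hδ0, by linarith, hη0, hη1, by linarith, hrδ⟩
  have htail : ∀ τ, τ₀ ≤ τ → pp N τ ∈ FF δ z₀ N := by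
    intro τ hτ
    have h1 : 1 / τ ≤ z₀ := by
      rw [hz₀]; exact one_div_le_one_div_of_le (by linarith) hτ
    exact pp_tail hN P (by linarith) h1 (h1.trans hz₀δ)
  set I : Set (ℝ × ℝ × ℝ) := pp N '' Icc 1 τ₀ with hI
  have hIc : IsClosed I := (isCompact_Icc.image (continuous_pp N)).isClosed
  have hFc : IsClosed (FF δ z₀ N) := isClosed_FF hδ0 N
  have hsub : CC N ⊆ FF δ z₀ N ∪ I := by
    refine closure_minimal ?_ (hFc.union hIc)
    rintro _ ⟨τ, rfl⟩
    have e : pp N τ = pp N (max τ 1) := by unfold pp; simp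
    rw [e]
    rcases le_total τ₀ (max τ 1) with h | h
    · exact Or.inl (htail _ h)
    · exact Or.inr ⟨max τ 1, ⟨le_max_right _ _, h⟩, rfl⟩
  have hFz : ∀ p ∈ FF δ z₀ N, p.2.2 ≤ z₀ := by
    intro p hp
    obtain ⟨k, hk | hk⟩ := mem_iUnion.1 hp
    · exact hk.2.2.2
    · exact hk.2.2.2
  have hppz : ∀ τ, 1 ≤ τ → (pp N τ).2.2 = 1 / τ := by
    intro τ hτ
    unfold pp; rw [max_eq_left hτ]
  have hIval : ∀ p ∈ I, QT δ η z₀ N p = 2 * N + (p.2.2 - z₀) := by
    rintro _ ⟨τ, ⟨h1, h2⟩, rfl⟩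
    unfold QT
    split_ifs with h
    · rw [hppz τ h1] at h
      have h3 : τ = τ₀ := by
        apply le_antisymm h2
        rw [hz₀] at h
        exact (one_div_le_one_div (by linarith) (by linarith)).1 h
      subst h3
      rw [hppz _ h1, sub_self, add_zero]
      have hx : xx N τ₀ = N := xx_even N m
      unfold QQ pp
      rw [max_eq_left h1]
      simp only [hx, Int.fract_natCast, Int.floor_natCast]
      rw [if_pos hδ0.le]
      have h4 : rp N τ₀ = z₀ := by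
        unfold rp pr
        rw [hx, Int.fract_natCast, trunc_zero, hz₀]; ring
      rw [h4, max_eq_left]
      · push_cast; ring
      · exact div_nonpos_of_nonpos_of_nonneg (by linarith) (by linarith)
    · rfl
  have hFval : ∀ p ∈ FF δ z₀ N, QT δ η z₀ N p = QQ δ η p := by
    intro p hp
    unfold QT
    rw [if_pos (hFz p hp)]
  refine ⟨QT δ η z₀ N, ?_, ?_⟩
  · refine ContinuousOn.mono (ContinuousOn.union_of_isClosed ?_ ?_ hFc hIc) hsub
    · exact (continuousOn_QQ P N).congr hFval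
    · have h : Continuous fun p : ℝ × ℝ × ℝ => 2 * (N : ℝ) + (p.2.2 - z₀) := by fun_prop
      exact h.continuousOn.congr hIval
  · -- fibres
    have hcase : ∀ p ∈ CC N, (p ∈ FF δ z₀ N) ∨ (∃ τ, 1 ≤ τ ∧ p = pp N τ ∧ z₀ < p.2.2 ∧
        QT δ η z₀ N p = 2 * N + (p.2.2 - z₀)) := by
      intro p hp
      rcases hsub hp with h | h
      · exact Or.inl h
      · obtain ⟨τ, ⟨h1, h2⟩, rfl⟩ := h
        rcases eq_or_lt_of_le h2 with h3 | h3
        · left; rw [h3]; exact htail _ le_rfl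
        · right
          refine ⟨τ, h1, rfl, ?_, hIval _ ⟨τ, ⟨h1, h2⟩, rfl⟩⟩
          rw [hppz τ h1, hz₀]
          exact one_div_lt_one_div_of_lt (by linarith) h3
    intro p hp q hq hpq
    rcases hcase p hp with h1 | ⟨τ, hτ1, hpτ, hpz, hpv⟩
    · rcases hcase q hq with h2 | ⟨σ, hσ1, hqσ, hqz, hqv⟩
      · rw [hFval p h1, hFval q h2] at hpq
        obtain ⟨-, hp1, hp2⟩ := decode P h1
        obtain ⟨-, hq1, hq2⟩ := decode P h2
        rw [hpq] at hp1 hp2
        have hz : ∀ p ∈ FF δ z₀ N, 0 ≤ p.2.2 := by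
          intro p hp
          obtain ⟨k, hk | hk⟩ := mem_iUnion.1 hp
          · exact hk.2.2.1
          · exact hk.2.2.1
        rw [Prod.dist_eq, Prod.dist_eq, max_lt_iff, max_lt_iff, Real.dist_eq, Real.dist_eq,
          Real.dist_eq]
        have e1 := abs_le.1 hp1
        have e2 := abs_le.1 hq1
        have e3 := abs_le.1 hp2
        have e4 := abs_le.1 hq2
        have e5 := hz p h1
        have e6 := hz q h2
        have e7 := hFz p h1
        have e8 := hFz q h2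
        refine ⟨abs_lt.2 ⟨?_, ?_⟩, abs_lt.2 ⟨?_, ?_⟩, abs_lt.2 ⟨?_, ?_⟩⟩ <;> linarith
      · exfalso
        rw [hFval p h1, hqv] at hpq
        have := (decode P h1).1
        linarith
    · rcases hcase q hq with h2 | ⟨σ, hσ1, hqσ, hqz, hqv⟩
      · exfalso
        rw [hFval q h2, hpv] at hpq
        have := (decode P h2).1
        linarith
      · rw [hpv, hqv] at hpq
        have h3 : p.2.2 = q.2.2 := by linarith
        rw [hpτ, hqσ, hppz τ hτ1, hppz σ hσ1] at h3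
        have h4 : τ = σ := by
          rw [one_div, one_div] at h3
          exact inv_injective h3
        rw [hpτ, hqσ, h4, dist_self]
        exact hε

theorem chainable_CC {N : ℕ} (hN : 1 ≤ N) : ∀ [CompactSpace (CC N)] [ConnectedSpace (CC N)],
    Chainable (CC N) := by
  intro _ _
  refine chainable_of_maps fun ε hε => ?_
  obtain ⟨Q, hQ1, hQ2⟩ := exists_emap hN hε
  exact ⟨fun p => Q p, hQ1.domRestrict, fun x y h => hQ2 x x.2 y y.2 h⟩

end Q172.RealCurve
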