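import Pool.Agent.Q172.RealCurve.Line

/-! # The ends of an injective continuous image of the line -/

set_option autoImplicit false
set_option linter.unusedSectionVars false
set_option linter.unusedVariables false

namespace Q172.RealCurve

open Set Topology Filter Function

section general

variable {X : Type*} [TopologicalSpace X]

/-- The cluster set of `f` along `F`. -/
def Om (F : Filter ℝ) (f : ℝ → X) : Set X := {x | MapClusterPt x F f}

theorem isClosed_Om (F : Filter ℝ) (f : ℝ → X) : IsClosed (Om F f) :=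
  isClosed_setOfPred_clusterPt

theorem Om_subset {F : Filter ℝ} {f : ℝ → X} [T2Space X] {P : Set X} (hP : IsClosed P)
    (he : ∀ᶠ a in F, f a ∈ P) : Om F f ⊆ P := fun _ hy => mem_of_cluster hy hP he

theorem eventually_mem [CompactSpace X] {F : Filter ℝ} {f : ℝ → X} {V : Set X} (hV : IsOpen V)
    (h : Om F f ⊆ V) : ∀ᶠ t in F, f t ∈ V := by
  by_contra hcon
  have h1 : ∃ᶠ t in F, f t ∈ Vᶜ := by
    rw [Filter.not_eventually] at hcon
    exact hcon
  obtain ⟨x, hx1, hx2⟩ := hV.isClosed_compl.isCompact.exists_mapClusterPt_of_frequently h1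
  exact hx1 (h hx2)

theorem nonempty_Om [CompactSpace X] {F : Filter ℝ} [F.NeBot] {f : ℝ → X} : (Om F f).Nonempty := by
  by_contra hcon
  rw [not_nonempty_iff_eq_empty] at hcon
  have := eventually_mem (F := F) (f := f) isOpen_empty (by rw [hcon])
  obtain ⟨t, ht⟩ := this.exists
  exact ht

theorem isConnected_Om [CompactSpace X] [T2Space X] {F : Filter ℝ} [F.NeBot]
    (hF : ∀ s ∈ F, ∃ s' ∈ F, s' ⊆ s ∧ IsPreconnected s') {f : ℝ → X} (hf : Continuous f) :
    IsConnected (Om F f) := by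
  refine ⟨nonempty_Om, ?_⟩
  rw [isPreconnected_iff_subset_of_fully_disjoint_closed (isClosed_Om F f)]
  intro a b ha hb hab hdis
  obtain ⟨u, v, hu, hv, hau, hbv, huv⟩ := SeparatedNhds.of_isCompact_isCompact ha.isCompact
    hb.isCompact hdis
  have hev := eventually_mem (F := F) (f := f) (hu.union hv) (hab.trans (union_subset_union hau hbv))
  obtain ⟨s, hs, hsub, hsc⟩ := hF _ hev
  have hpre : IsPreconnected (f '' s) := hsc.image f hf.continuousOn
  rcases isPreconnected_iff_subset_of_disjoint.1 hpre u v hu hv (image_subset_iff.2 hsub)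
    (by rw [huv.inter_eq, inter_empty]) with h | h
  · left
    intro y hy
    rcases hab hy with h1 | h1
    · exact h1
    · have h2 : y ∈ closure u := Om_subset (F := F) (f := f) isClosed_closure
        (Filter.mem_of_superset hs fun t ht => subset_closure (h ⟨t, ht, rfl⟩)) hy
      exact (disjoint_left.1 (huv.closure_left hv) h2 (hbv h1)).elim
  · right
    intro y hy
    rcases hab hy with h1 | h1
    · have h2 : y ∈ closure v := Om_subset (F := F) (f := f) isClosed_closure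
        (Filter.mem_of_superset hs fun t ht => subset_closure (h ⟨t, ht, rfl⟩)) hy
      exact (disjoint_left.1 (huv.closure_right hu) (hau h1) h2).elim
    · exact h1

theorem atTop_good : ∀ s ∈ (atTop : Filter ℝ), ∃ s' ∈ (atTop : Filter ℝ), s' ⊆ s ∧
    IsPreconnected s' := by
  intro s hs
  obtain ⟨T, hT⟩ := mem_atTop_sets.1 hs
  exact ⟨Ici T, Ici_mem_atTop T, hT, isPreconnected_Ici⟩

theorem atBot_good : ∀ s ∈ (atBot : Filter ℝ), ∃ s' ∈ (atBot : Filter ℝ), s' ⊆ s ∧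
    IsPreconnected s' := by
  intro s hs
  obtain ⟨T, hT⟩ := mem_atBot_sets.1 hs
  exact ⟨Iic T, Iic_mem_atBot T, hT, isPreconnected_Iic⟩

theorem image_Om [CompactSpace X] {Z : Type*} [TopologicalSpace Z] [T2Space Z] {F : Filter ℝ}
    {f : ℝ → X} {g : X → Z} (hg : Continuous g) : g '' Om F f = Om F (g ∘ f) := by
  apply Subset.antisymm
  · rintro _ ⟨x, hx, rfl⟩
    exact MapClusterPt.continuousAt_comp hg.continuousAt hx
  · intro y hy
    obtain ⟨U, hU, hUy⟩ := mapClusterPt_iff_ultrafilter.1 hy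
    obtain ⟨x, -, hx⟩ := (isCompact_univ (X := X)).ultrafilter_le_nhds (U.map f) (by simp)
    have h1 : Tendsto f U (𝓝 x) := by simpa [Tendsto] using hx
    refine ⟨x, mapClusterPt_iff_ultrafilter.2 ⟨U, hU, h1⟩, ?_⟩
    exact tendsto_nhds_unique ((hg.tendsto x).comp h1) hUy

theorem Om_neg (f : ℝ → X) : Om atTop (f ∘ Neg.neg) = Om atBot f := by
  ext x
  show ClusterPt x (map (f ∘ Neg.neg) atTop) ↔ ClusterPt x (map f atBot)
  rw [← Filter.map_map, Filter.map_neg_atTop]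

theorem closure_image_Iic [T2Space X] {f : ℝ → X} (hf : Continuous f) (T0 : ℝ) :
    closure (f '' Iic T0) ⊆ f '' Iic T0 ∪ Om atBot f := by
  intro x hx
  by_cases hxO : x ∈ Om atBot f
  · exact Or.inr hxO
  left
  have h1 : ¬ MapClusterPt x atBot f := hxO
  rw [mapClusterPt_iff_frequently] at h1
  push Not at h1
  obtain ⟨s, hs, h2⟩ := h1
  obtain ⟨T1, hT1⟩ := eventually_atBot.1 h2
  have h3 : x ∈ closure (f '' Icc T1 T0) := by
    rw [mem_closure_iff_nhds] at hx ⊢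
    intro u hu
    obtain ⟨_, ⟨hy1, hy2⟩, t, ht, rfl⟩ := hx (u ∩ s) (inter_mem hu hs)
    refine ⟨f t, hy1, t, ⟨?_, ht⟩, rfl⟩
    by_contra hn
    exact hT1 t (not_le.1 hn).le hy2
  rw [(isCompact_Icc.image hf).isClosed.closure_eq] at h3
  exact image_mono Icc_subset_Iic_self h3

theorem no_own_tail [CompactSpace X] [T2Space X] {f : ℝ → X} (hf : Continuous f)
    (hinj : Injective f) (hsurj : Surjective f) (T : ℝ) : ∃ t ≥ T, f t ∉ Om atTop f := by
  by_contra hcon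
  push Not at hcon
  have hOc : IsClosed (Om atTop f) := isClosed_Om _ _
  have : CompactSpace (Om atTop f) := isCompact_iff_compactSpace.1 hOc.isCompact
  have hne : (Om atTop f).Nonempty := nonempty_Om
  have := hne.to_subtype
  obtain ⟨n, z, hz⟩ := nonempty_interior_of_iUnion_of_closed
    (f := fun n : ℕ => (Subtype.val ⁻¹' (f '' Icc (-(n : ℝ)) n) : Set (Om atTop f)))
    (fun n => (isCompact_Icc.image hf).isClosed.preimage continuous_subtype_val) (by
      rw [eq_univ_iff_forall]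
      rintro ⟨x, hx⟩
      obtain ⟨t, rfl⟩ := hsurj x
      obtain ⟨n, hn⟩ := exists_nat_ge |t|
      exact mem_iUnion.2 ⟨n, t, abs_le.1 hn, rfl⟩)
  obtain ⟨O, hO, hOeq⟩ := isOpen_induced_iff.1 (isOpen_interior (s := (Subtype.val ⁻¹'
    (f '' Icc (-(n : ℝ)) n) : Set (Om atTop f))))
  have hzO : (z : X) ∈ O := by
    have : z ∈ Subtype.val ⁻¹' O := by rw [hOeq]; exact hz
    exact this
  have h1 := (mapClusterPt_iff_frequently.1 z.2) O (hO.mem_nhds hzO)
  obtain ⟨t, ht1, ht2⟩ := (h1.and_eventually (eventually_ge_atTop (max T (n + 1)))).exists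
  have ht3 : f t ∈ Om atTop f := hcon t ((le_max_left _ _).trans ht2)
  have ht4 : (⟨f t, ht3⟩ : Om atTop f) ∈ interior (Subtype.val ⁻¹'
      (f '' Icc (-(n : ℝ)) n) : Set (Om atTop f)) := by
    rw [← hOeq]; exact ht1
  obtain ⟨t', ht', htt⟩ := interior_subset ht4
  have : t' = t := hinj htt
  subst this
  have := (le_max_right T ((n : ℝ) + 1)).trans ht2
  linarith [ht'.2]

theorem no_own_tail' [CompactSpace X] [T2Space X] {f : ℝ → X} (hf : Continuous f)
    (hinj : Injective f) (hsurj : Surjective f) (T : ℝ) : ∃ t ≤ T, f t ∉ Om atBot f := by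
  obtain ⟨t, ht1, ht2⟩ := no_own_tail (f := f ∘ Neg.neg) (hf.comp continuous_neg)
    (hinj.comp neg_injective) (hsurj.comp neg_surjective) (-T)
  rw [Om_neg] at ht2
  exact ⟨-t, by linarith, ht2⟩

end general

section up

variable {X : Type*} [TopologicalSpace X] [T2Space X] [CompactSpace X]

/-- The positive end accumulates on the negative tail. -/
def Up (f : ℝ → X) : Prop := ∃ M, ∀ t ≤ M, f t ∈ Om atTop f

theorem up_bot_subset {f : ℝ → X} (hf : Continuous f) (hup : Up f) : Om atBot f ⊆ Om atTop f := by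
  obtain ⟨M, hM⟩ := hup
  exact Om_subset (isClosed_Om _ _) ((eventually_le_atBot M).mono hM)

theorem up_bounded {f : ℝ → X} (hf : Continuous f) (hinj : Injective f) (hsurj : Surjective f)
    (hup : Up f) : ∃ M, ∀ t, f t ∈ Om atBot f → |t| ≤ M := by
  refine bounded_of_no_tails hf hinj (isClosed_Om _ _).isCompact (isConnected_Om atBot_good hf)
    (by rw [hsurj.range_eq]; exact subset_univ _) (fun T => ?_) (no_own_tail' hf hinj hsurj)
  obtain ⟨t, ht1, ht2⟩ := no_own_tail hf hinj hsurj T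
  exact ⟨t, ht1, fun h => ht2 (up_bot_subset hf hup h)⟩

theorem up_bddAbove {f : ℝ → X} (hf : Continuous f) (hinj : Injective f) (hsurj : Surjective f)
    (hup : Up f) : ∃ M, ∀ t, f t ∈ Om atTop f → t ≤ M := by
  obtain ⟨M, hM⟩ := up_bounded hf hinj hsurj hup
  obtain ⟨T0, hT0, hT0'⟩ := no_own_tail hf hinj hsurj M
  refine bddAbove_of_no_tail hf hinj (isClosed_Om _ _).isCompact (isConnected_Om atTop_good hf)
    (by rw [hsurj.range_eq]; exact subset_univ _) (no_own_tail hf hinj hsurj) hT0' ?_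
  rw [image_inter_preimage]
  rw [← closure_subset_iff_isClosed]
  intro x hx
  have h1 : x ∈ closure (f '' Iic T0) := closure_mono inter_subset_left hx
  have h2 : x ∈ Om atTop f := by
    have := closure_mono (inter_subset_right (s := f '' Iic T0) (t := Om atTop f)) hx
    rwa [(isClosed_Om _ _).closure_eq] at this
  refine ⟨?_, h2⟩
  rcases closure_image_Iic hf T0 h1 with h | h
  · exact h
  · obtain ⟨t, rfl⟩ := hsurj x
    exact ⟨t, ((le_abs_self t).trans (hM t h)).trans hT0, rfl⟩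

end up

section target

variable {X : Type*} [TopologicalSpace X] [T2Space X] [CompactSpace X]
  {Z : Type*} [TopologicalSpace Z] [T2Space Z]

/-- The curves that we map onto: the negative end accumulates exactly on the arc `h '' [0,1]` and
the positive end on `h '' (-∞,1]`. -/
structure Tgt (h : ℝ → Z) : Prop where
  cont : Continuous h
  inj : Injective h
  top_sub : Om atTop h ⊆ h '' Iic 1
  top_sup : h '' Iic 1 ⊆ Om atTop h
  bot_sub : Om atBot h ⊆ h '' Icc 0 1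
  bot_sup : h '' Icc 0 1 ⊆ Om atBot h

theorem Tgt.lift {h : ℝ → Z} (T : Tgt h) {φ : ℝ → Z} (hφ : Continuous φ)
    (hr : ∀ t, φ t ∈ range h) : ∃ ψ : ℝ → ℝ, Continuous ψ ∧ ∀ t, h (ψ t) = φ t :=
  exists_lift T.cont T.inj (y1 := h 0) (y2 := h 1) (fun e => by simpa using T.inj e)
    (T.top_sup ⟨0, by simp, rfl⟩) (T.top_sup ⟨1, by simp, rfl⟩)
    (T.bot_sup ⟨0, by simp, rfl⟩) (T.bot_sup ⟨1, by simp, rfl⟩) hφ hr

/-- If `ψ` maps every member of `F` onto a neighbourhood of `+∞`. -/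
theorem Om_sub_of_unbdd {F : Filter ℝ} {h : ℝ → Z} {ψ : ℝ → ℝ}
    (hψ : ∀ s ∈ F, ∃ m, Ici m ⊆ ψ '' s) : Om atTop h ⊆ Om F (h ∘ ψ) := by
  intro y hy
  refine mapClusterPt_iff_frequently.2 fun u hu => ?_
  rw [Filter.frequently_iff]
  intro s hs
  obtain ⟨m, hm⟩ := hψ s hs
  obtain ⟨τ, hτ1, hτ2⟩ := ((mapClusterPt_iff_frequently.1 hy u hu).and_eventually
    (eventually_ge_atTop m)).exists
  obtain ⟨t, ht, rfl⟩ := hm hτ2
  exact ⟨t, ht, hτ1⟩

theorem mem_Om_of_hits {F : Filter ℝ} {h : ℝ → Z} {ψ : ℝ → ℝ} {τ : ℝ}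
    (hψ : ∀ s ∈ F, τ ∈ ψ '' s) : h τ ∈ Om F (h ∘ ψ) := by
  refine mapClusterPt_iff_frequently.2 fun u hu => ?_
  rw [Filter.frequently_iff]
  intro s hs
  obtain ⟨t, ht, rfl⟩ := hψ s hs
  exact ⟨t, ht, mem_of_mem_nhds hu⟩

/-- An unbounded continuous function on a connected set is onto a ray. -/
theorem cover_up {ψ : ℝ → ℝ} (hψ : Continuous ψ) {s : Set ℝ} (hs : IsPreconnected s) {a : ℝ}
    (ha : a ∈ s) (hu : ∀ m, ∃ t ∈ s, m ≤ ψ t) : Ici (ψ a) ⊆ ψ '' s := by
  intro τ hτ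
  obtain ⟨t, ht, hm⟩ := hu τ
  exact hs.intermediate_value ha ht hψ.continuousOn ⟨hτ, hm⟩

theorem cover_down {ψ : ℝ → ℝ} (hψ : Continuous ψ) {s : Set ℝ} (hs : IsPreconnected s) {a : ℝ}
    (ha : a ∈ s) (hu : ∀ m, ∃ t ∈ s, ψ t ≤ m) : Iic (ψ a) ⊆ ψ '' s := by
  intro τ hτ
  obtain ⟨t, ht, hm⟩ := hu τ
  exact hs.intermediate_value ht ha hψ.continuousOn ⟨hm, hτ⟩

theorem bdd_on_Icc {ψ : ℝ → ℝ} (hψ : Continuous ψ) (a b : ℝ) : ∃ m, ∀ t ∈ Icc a b, |ψ t| ≤ m := by
  obtain ⟨m, hm⟩ := ((isCompact_Icc (a := a) (b := b)).image hψ).isBounded.subset_closedBall 0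
  refine ⟨m, fun t ht => ?_⟩
  have := hm ⟨t, ht, rfl⟩
  simpa using this

/-- Values of the lift on the cluster set. -/
theorem lift_values {f : ℝ → X} {g : X → Z} (hg : Continuous g) {h : ℝ → Z} (T : Tgt h)
    {ψ : ℝ → ℝ} (hψ2 : ∀ t, h (ψ t) = g (f t)) {F : Filter ℝ} {τ : ℝ}
    (hsurj : Surjective f) (hτ : h τ ∈ Om F (h ∘ ψ)) : ∃ a, f a ∈ Om F f ∧ ψ a = τ := by
  have h1 : h ∘ ψ = g ∘ f := funext hψ2
  rw [h1, ← image_Om hg] at hτ
  obtain ⟨x, hx, hxτ⟩ := hτ
  obtain ⟨a, rfl⟩ := hsurj x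
  exact ⟨a, hx, T.inj (by rw [hψ2, hxτ])⟩

theorem up_of_unbdd {f : ℝ → X} (hf : Continuous f) (hinj : Injective f) (hsurj : Surjective f)
    {g : X → Z} (hg : Continuous g) {h : ℝ → Z} (T : Tgt h) {ψ : ℝ → ℝ} (hψ : Continuous ψ)
    (hψ2 : ∀ t, h (ψ t) = g (f t)) (hu : ∀ T m, ∃ t ≥ T, m ≤ ψ t) : Up f := by
  have h1 : Om atTop h ⊆ Om atTop (h ∘ ψ) := by
    apply Om_sub_of_unbdd
    intro s hs
    obtain ⟨T0, hT0⟩ := mem_atTop_sets.1 hs
    refine ⟨ψ T0, (cover_up hψ isPreconnected_Ici (a := T0) (s := Ici T0) self_mem_Ici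
      (fun m => ?_)).trans (image_mono hT0)⟩
    obtain ⟨t, ht1, ht2⟩ := hu T0 m
    exact ⟨t, ht1, ht2⟩
  have h2 : ∀ τ ≤ 1, ∃ a, f a ∈ Om atTop f ∧ ψ a = τ := fun τ hτ =>
    lift_values hg T hψ2 hsurj (h1 (T.top_sup ⟨τ, hτ, rfl⟩))
  by_contra hup
  have h3 : ∀ T, ∃ t ≤ T, f t ∉ Om atTop f := by
    intro T
    by_contra hcon
    push Not at hcon
    exact hup ⟨T, hcon⟩
  obtain ⟨M, hM⟩ := bounded_of_no_tails hf hinj (isClosed_Om _ _).isCompact
    (isConnected_Om atTop_good hf) (by rw [hsurj.range_eq]; exact subset_univ _)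
    (no_own_tail hf hinj hsurj) h3
  obtain ⟨m, hm⟩ := bdd_on_Icc hψ (-M) M
  obtain ⟨a, ha1, ha2⟩ := h2 (min 1 (-m - 1)) (min_le_left _ _)
  have h4 := hm a (abs_le.1 (hM a ha1))
  have h5 : ψ a ≤ -m - 1 := by rw [ha2]; exact min_le_right _ _
  have h6 := (abs_le.1 h4).1
  linarith

/-- For a map onto a target curve the domain curve has one of its ends of the big type. -/
theorem up_or_up_neg {f : ℝ → X} (hf : Continuous f) (hinj : Injective f) (hsurj : Surjective f)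
    {g : X → Z} (hg : Continuous g) {h : ℝ → Z} (T : Tgt h) (hr : range g = range h) :
    Up f ∨ Up (f ∘ Neg.neg) := by
  obtain ⟨ψ, hψ, hψ2⟩ := T.lift (φ := g ∘ f) (hg.comp hf) (fun t => by
    rw [← hr]; exact ⟨f t, rfl⟩)
  have hψs : ∀ τ, ∃ t, ψ t = τ := by
    intro τ
    have : h τ ∈ range g := by rw [hr]; exact ⟨τ, rfl⟩
    obtain ⟨x, hx⟩ := this
    obtain ⟨t, rfl⟩ := hsurj x
    exact ⟨t, T.inj (by rw [hψ2]; exact hx)⟩
  by_cases hc : ∀ T m, ∃ t ≥ T, m ≤ ψ t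
  · exact Or.inl (up_of_unbdd hf hinj hsurj hg T hψ hψ2 hc)
  · right
    refine up_of_unbdd (f := f ∘ Neg.neg) (hf.comp continuous_neg) (hinj.comp neg_injective)
      (hsurj.comp neg_surjective) hg T (ψ := ψ ∘ Neg.neg) (hψ.comp continuous_neg)
      (fun t => hψ2 (-t)) ?_
    push Not at hc
    obtain ⟨T1, m1, h1⟩ := hc
    intro T2 m
    by_contra hcon
    push Not at hcon
    obtain ⟨m2, hm2⟩ := bdd_on_Icc hψ (-T2) T1
    obtain ⟨t, ht⟩ := hψs (max m (max m1 (m2 + 1)))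
    have h3 : m ≤ ψ t := by rw [ht]; exact le_max_left _ _
    have h4 : m1 ≤ ψ t := by rw [ht]; exact (le_max_left _ _).trans (le_max_right _ _)
    have h5 : m2 + 1 ≤ ψ t := by rw [ht]; exact (le_max_right _ _).trans (le_max_right _ _)
    have h6 : t < T1 := by
      by_contra h
      exact absurd h4 (not_le.2 (h1 t (not_lt.1 h)))
    have h7 : -T2 < t := by
      by_contra h
      have := hcon (-t) (by linarith [not_lt.1 h])
      simp only [comp_apply, neg_neg] at this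
      linarith
    have h8 := hm2 t ⟨h7.le, h6.le⟩
    linarith [(abs_le.1 h8).2]

/-- The structure of a map of a curve with big positive end onto a target curve. -/
theorem ends {f : ℝ → X} (hf : Continuous f) (hinj : Injective f) (hsurj : Surjective f)
    (hup : Up f) {g : X → Z} (hg : Continuous g) {h : ℝ → Z} (T : Tgt h)
    (hr : range g = range h) :
    ∃ ψ : ℝ → ℝ, Continuous ψ ∧ (∀ t, h (ψ t) = g (f t)) ∧ Tendsto ψ atTop atTop ∧
      Tendsto ψ atBot atBot ∧ (∀ a, f a ∈ Om atTop f → ψ a ≤ 1) ∧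
      (∀ a, f a ∈ Om atBot f → ψ a ∈ Icc (0 : ℝ) 1) := by
  obtain ⟨ψ, hψ, hψ2⟩ := T.lift (φ := g ∘ f) (hg.comp hf) (fun t => by
    rw [← hr]; exact ⟨f t, rfl⟩)
  have hψs : ∀ τ, ∃ t, ψ t = τ := by
    intro τ
    have : h τ ∈ range g := by rw [hr]; exact ⟨τ, rfl⟩
    obtain ⟨x, hx⟩ := this
    obtain ⟨t, rfl⟩ := hsurj x
    exact ⟨t, T.inj (by rw [hψ2]; exact hx)⟩
  obtain ⟨M, hM⟩ := up_bounded hf hinj hsurj hup
  obtain ⟨M', hM'⟩ := up_bddAbove hf hinj hsurj hup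
  obtain ⟨m, hm⟩ := bdd_on_Icc hψ (-M) M
  have hbot : ∀ τ, h τ ∈ Om atBot (h ∘ ψ) → |τ| ≤ m := by
    intro τ hτ
    obtain ⟨a, ha1, ha2⟩ := lift_values hg T hψ2 hsurj hτ
    rw [← ha2]
    exact hm a (abs_le.1 (hM a ha1))
  -- `ψ` is bounded above on negative half-lines
  have h6a : ∃ m1, ∀ t ≤ 0, ψ t ≤ m1 := by
    by_contra hcon
    push Not at hcon
    have h1 : Om atTop h ⊆ Om atBot (h ∘ ψ) := by
      apply Om_sub_of_unbdd
      intro s hs
      obtain ⟨T0, hT0⟩ := mem_atBot_sets.1 hs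
      refine ⟨ψ T0, (cover_up hψ isPreconnected_Iic (a := T0) (s := Iic T0) self_mem_Iic
        (fun m' => ?_)).trans (image_mono hT0)⟩
      obtain ⟨m2, hm2⟩ := bdd_on_Icc hψ T0 0
      obtain ⟨t, ht1, ht2⟩ := hcon (max m' m2)
      refine ⟨t, ?_, ((le_max_left _ _).trans_lt ht2).le⟩
      by_contra h
      have h3 := hm2 t ⟨(not_le.1 h).le, ht1⟩
      have h4 := (le_max_right m' m2).trans_lt ht2
      linarith [(abs_le.1 h3).2]
    have h2 := hbot (min 1 (-m - 1)) (h1 (T.top_sup ⟨_, mem_Iic.2 (min_le_left _ _), rfl⟩))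
    have h3 := (abs_le.1 h2).1
    linarith [min_le_right 1 (-m - 1)]
  have h6a' : ∀ T1, ∃ m1, ∀ t ≤ T1, ψ t ≤ m1 := by
    intro T1
    obtain ⟨m1, hm1⟩ := h6a
    obtain ⟨m2, hm2⟩ := bdd_on_Icc hψ 0 T1
    refine ⟨max m1 m2, fun t ht => ?_⟩
    rcases le_total t 0 with h | h
    · exact (hm1 t h).trans (le_max_left _ _)
    · exact ((le_abs_self _).trans (hm2 t ⟨h, ht⟩)).trans (le_max_right _ _)
  have hunb : ∀ T1 m1, ∃ t ≥ T1, m1 ≤ ψ t := by
    intro T1 m1
    obtain ⟨m2, hm2⟩ := h6a' T1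
    obtain ⟨t, ht⟩ := hψs (max m1 (m2 + 1))
    refine ⟨t, ?_, by rw [ht]; exact le_max_left _ _⟩
    by_contra h
    have := hm2 t (not_le.1 h).le
    rw [ht] at this
    linarith [le_max_right m1 (m2 + 1)]
  -- `ψ → ∞`
  have htop : Tendsto ψ atTop atTop := by
    rw [tendsto_atTop_atTop]
    by_contra hcon
    push Not at hcon
    obtain ⟨b, hb⟩ := hcon
    have h1 : ∀ τ, b ≤ τ → h τ ∈ Om atTop (h ∘ ψ) := by
      intro τ hτ
      apply mem_Om_of_hits
      intro s hs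
      obtain ⟨T0, hT0⟩ := mem_atTop_sets.1 hs
      obtain ⟨a, ha1, ha2⟩ := hb T0
      refine (cover_up hψ isPreconnected_Ici (a := a) (s := Ici T0) ha1 (fun m' => ?_)).trans
        (image_mono hT0) (ha2.le.trans hτ)
      obtain ⟨t, ht1, ht2⟩ := hunb T0 m'
      exact ⟨t, ht1, ht2⟩
    obtain ⟨m2, hm2⟩ := h6a' M'
    obtain ⟨a, ha1, ha2⟩ := lift_values hg T hψ2 hsurj (h1 (max b (m2 + 1)) (le_max_left _ _))
    have := hm2 a (hM' a ha1)
    rw [ha2] at this
    linarith [le_max_right b (m2 + 1)]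
  have hle : ∀ a, f a ∈ Om atTop f → ψ a ≤ 1 := by
    intro a ha
    have h1 : h (ψ a) ∈ Om atTop (h ∘ ψ) := by
      have h2 : h ∘ ψ = g ∘ f := funext hψ2
      rw [h2, ← image_Om hg, hψ2]
      exact ⟨f a, ha, rfl⟩
    have h3 : h (ψ a) ∈ Om atTop h := by
      have : MapClusterPt (h (ψ a)) atTop (h ∘ ψ) := h1
      show ClusterPt _ _
      refine ClusterPt.mono this ?_
      rw [← Filter.map_map]
      exact Filter.map_mono htop
    obtain ⟨s, hs1, hs2⟩ := T.top_sub h3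
    rw [← T.inj hs2]
    exact hs1
  have hge : ∀ τ ≤ 1, ∃ a, f a ∈ Om atTop f ∧ ψ a = τ := by
    intro τ hτ
    refine lift_values hg T hψ2 hsurj ?_
    refine (Om_sub_of_unbdd (F := atTop) (h := h) (ψ := ψ) ?_) (T.top_sup ⟨τ, hτ, rfl⟩)
    intro s hs
    obtain ⟨T0, hT0⟩ := mem_atTop_sets.1 hs
    refine ⟨ψ T0, (cover_up hψ isPreconnected_Ici (a := T0) (s := Ici T0) self_mem_Ici
      (fun m' => ?_)).trans (image_mono hT0)⟩
    obtain ⟨t, ht1, ht2⟩ := hunb T0 m'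
    exact ⟨t, ht1, ht2⟩
  have hbotu : ∀ T1 m1, ∃ t ≤ T1, ψ t ≤ m1 := by
    intro T1 m1
    obtain ⟨m2, hm2⟩ := bdd_on_Icc hψ T1 M'
    obtain ⟨a, ha1, ha2⟩ := hge (min 1 (min m1 (-m2 - 1))) (min_le_left _ _)
    have h1 : ψ a ≤ m1 := by rw [ha2]; exact (min_le_right _ _).trans (min_le_left _ _)
    have h2 : ψ a ≤ -m2 - 1 := by rw [ha2]; exact (min_le_right _ _).trans (min_le_right _ _)
    refine ⟨a, ?_, h1⟩
    by_contra h
    have h3 := hm2 a ⟨(not_le.1 h).le, hM' a ha1⟩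
    linarith [(abs_le.1 h3).1]
  have hbott : Tendsto ψ atBot atBot := by
    rw [tendsto_atBot_atBot]
    by_contra hcon
    push Not at hcon
    obtain ⟨b, hb⟩ := hcon
    have h1 : ∀ τ, τ ≤ b → h τ ∈ Om atBot (h ∘ ψ) := by
      intro τ hτ
      apply mem_Om_of_hits
      intro s hs
      obtain ⟨T0, hT0⟩ := mem_atBot_sets.1 hs
      obtain ⟨a, ha1, ha2⟩ := hb T0
      refine (cover_down hψ isPreconnected_Iic (a := a) (s := Iic T0) ha1 (fun m' => ?_)).trans
        (image_mono hT0) (hτ.trans ha2.le)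
      obtain ⟨t, ht1, ht2⟩ := hbotu T0 m'
      exact ⟨t, ht1, ht2⟩
    have h2 := hbot (min b (-m - 1)) (h1 _ (min_le_left _ _))
    linarith [(abs_le.1 h2).1, min_le_right b (-m - 1)]
  refine ⟨ψ, hψ, hψ2, htop, hbott, hle, ?_⟩
  intro a ha
  have h1 : h (ψ a) ∈ Om atBot (h ∘ ψ) := by
    have h2 : h ∘ ψ = g ∘ f := funext hψ2
    rw [h2, ← image_Om hg, hψ2]
    exact ⟨f a, ha, rfl⟩
  have h3 : h (ψ a) ∈ Om atBot h := by
    have : MapClusterPt (h (ψ a)) atBot (h ∘ ψ) := h1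
    show ClusterPt _ _
    refine ClusterPt.mono this ?_
    rw [← Filter.map_map]
    exact Filter.map_mono hbott
  obtain ⟨s, hs1, hs2⟩ := T.bot_sub h3
  rw [← T.inj hs2]
  exact hs1

end target

end Q172.RealCurve
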