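import Pool.Agent.Q172.RealCurve.Sier

/-! # Injective continuous images of the line -/

set_option autoImplicit false
set_option linter.unusedSectionVars false
set_option linter.unusedVariables false

namespace Q172.RealCurve

open Set Topology Filter Function

section seq

theorem exists_seq {q : ℝ → Prop} (h : ∀ T, ∃ t ≥ T, q t) {T0 : ℝ} (hT0 : q T0) :
    ∃ c : ℕ → ℝ, c 0 = T0 ∧ (∀ n, c n + 1 ≤ c (n + 1)) ∧ ∀ n, q (c n) := by
  choose g hg1 hg2 using h
  let c : ℕ → ℝ := fun n => Nat.rec T0 (fun _ x => g (x + 1)) n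
  refine ⟨c, rfl, fun n => hg1 (c n + 1), fun n => ?_⟩
  cases n with
  | zero => exact hT0
  | succ n => exact hg2 (c n + 1)

theorem seq_ge {c : ℕ → ℝ} (hc : ∀ n, c n + 1 ≤ c (n + 1)) (n : ℕ) : c 0 + n ≤ c n := by
  induction n with
  | zero => simp
  | succ n ih => push_cast; linarith [hc n]

theorem seq_mono {c : ℕ → ℝ} (hc : ∀ n, c n + 1 ≤ c (n + 1)) : Monotone c :=
  monotone_nat_of_le_succ fun n => by linarith [hc n]

theorem seq_cover {c : ℕ → ℝ} (hc : ∀ n, c n + 1 ≤ c (n + 1)) {t : ℝ} (ht : c 0 ≤ t) :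
    ∃ n, t ∈ Icc (c n) (c (n + 1)) := by
  by_contra hcon
  push Not at hcon
  have : ∀ n, c n ≤ t := by
    intro n
    induction n with
    | zero => exact ht
    | succ n ih =>
      by_contra hn
      exact hcon n ⟨ih, (not_le.mp hn).le⟩
  obtain ⟨n, hn⟩ := exists_nat_gt (t - c 0)
  linarith [this n, seq_ge hc n]

theorem seq_disj {c : ℕ → ℝ} (hc : ∀ n, c n + 1 ≤ c (n + 1)) {q : ℝ → Prop} (hq : ∀ n, q (c n))
    {i j : ℕ} {t : ℝ} (hi : t ∈ Icc (c i) (c (i + 1))) (hj : t ∈ Icc (c j) (c (j + 1)))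
    (ht : ¬ q t) : i = j := by
  rcases lt_trichotomy i j with h | h | h
  · exfalso
    have h1 : c (i + 1) ≤ c j := seq_mono hc h
    have : t = c j := le_antisymm (hi.2.trans h1) hj.1
    exact ht (this ▸ hq j)
  · exact h
  · exfalso
    have h1 : c (j + 1) ≤ c i := seq_mono hc h
    have : t = c i := le_antisymm (hj.2.trans h1) hi.1
    exact ht (this ▸ hq i)

end seq

variable {Z : Type*} [TopologicalSpace Z] [T2Space Z]

theorem pieces {f : ℝ → Z} (hinj : Injective f) {P : Set Z} (hP : IsCompact P)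
    (hPc : IsConnected P) (hPr : P ⊆ range f) {ι : Type*} [Countable ι] [Nonempty ι]
    {G : ι → Set ℝ} (hcl : ∀ i, IsClosed (f '' (G i ∩ f ⁻¹' P)))
    (hd : ∀ i j t, t ∈ G i → t ∈ G j → f t ∈ P → i = j) (hcov : ∀ t, f t ∈ P → ∃ i, t ∈ G i) :
    ∃ i, ∀ t, f t ∈ P → t ∈ G i := by
  obtain ⟨i, hi⟩ := sierpinski hP hPc hcl (by
      intro i j hij
      rw [disjoint_left]
      rintro _ ⟨t, ⟨ht1, ht2⟩, rfl⟩ ⟨t', ⟨ht1', ht2'⟩, htt⟩
      have := hinj htt
      subst this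
      exact hij (hd i j t' ht1 ht1' ht2)) (by
      intro x hx
      obtain ⟨t, rfl⟩ := hPr hx
      obtain ⟨i, hi⟩ := hcov t hx
      exact mem_iUnion.2 ⟨i, t, ⟨hi, hx⟩, rfl⟩)
  refine ⟨i, fun t ht => ?_⟩
  obtain ⟨t', ⟨ht1, -⟩, htt⟩ := hi ht
  rwa [← hinj htt]

theorem closed_piece {f : ℝ → Z} (hf : Continuous f) {P : Set Z} (hP : IsCompact P) {G : Set ℝ}
    (hG : IsCompact G) : IsClosed (f '' (G ∩ f ⁻¹' P)) :=
  ((hG.inter_right (hP.isClosed.preimage hf)).image hf).isClosed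

/-- The preimage of a continuum that contains no tail is bounded. -/
theorem bounded_of_no_tails {f : ℝ → Z} (hf : Continuous f) (hinj : Injective f) {P : Set Z}
    (hP : IsCompact P) (hPc : IsConnected P) (hPr : P ⊆ range f) (h1 : ∀ T, ∃ t ≥ T, f t ∉ P)
    (h2 : ∀ T, ∃ t ≤ T, f t ∉ P) : ∃ M, ∀ t, f t ∈ P → |t| ≤ M := by
  obtain ⟨T0, -, hT0⟩ := h1 0
  obtain ⟨c, hc0, hc1, hc2⟩ := exists_seq h1 hT0
  have h2' : ∀ T, ∃ t ≥ T, f (-t) ∉ P := by
    intro T
    obtain ⟨t, ht, ht'⟩ := h2 (-T)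
    exact ⟨-t, by simpa using neg_le_neg ht, by simpa using ht'⟩
  obtain ⟨d, hd0, hd1, hd2⟩ := exists_seq (q := fun t => f (-t) ∉ P) h2' (T0 := -T0)
    (by simpa using hT0)
  let G : ℕ ⊕ ℕ → Set ℝ := fun i => match i with
    | Sum.inl n => Icc (c n) (c (n + 1))
    | Sum.inr n => Icc (-(d (n + 1))) (-(d n))
  have hGc : ∀ i, IsCompact (G i) := by
    rintro (n | n)
    · exact isCompact_Icc
    · exact isCompact_Icc
  have hdn : ∀ n t, t ∈ Icc (-(d (n + 1))) (-(d n)) → -t ∈ Icc (d n) (d (n + 1)) := by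
    intro n t ht
    exact ⟨by linarith [ht.2], by linarith [ht.1]⟩
  have hcross : ∀ m n t, t ∈ Icc (c m) (c (m + 1)) → t ∈ Icc (-(d (n + 1))) (-(d n)) →
      f t ∉ P := by
    intro m n t h h'
    have h3 : c 0 ≤ c m := seq_mono hc1 (Nat.zero_le m)
    have h4 : d 0 ≤ d n := seq_mono hd1 (Nat.zero_le n)
    have : t = T0 := le_antisymm (by linarith [h'.2]) (by linarith [h.1])
    rw [this]; exact hT0
  obtain ⟨i, hi⟩ := pieces hinj hP hPc hPr (G := G) (fun i => closed_piece hf hP (hGc i)) (by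
      rintro (i | i) (j | j) t hi hj ht
      · rw [seq_disj (q := fun t => f t ∉ P) hc1 hc2 hi hj (not_not.mpr ht)]
      · exact (hcross i j t hi hj ht).elim
      · exact (hcross j i t hj hi ht).elim
      · rw [seq_disj (q := fun t => f (-t) ∉ P) hd1 hd2 (hdn i t hi) (hdn j t hj)
          (by rw [neg_neg]; exact not_not.mpr ht)]) (by
      intro t _
      rcases le_total T0 t with h | h
      · obtain ⟨n, hn⟩ := seq_cover hc1 (t := t) (by rw [hc0]; exact h)
        exact ⟨Sum.inl n, hn⟩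
      · obtain ⟨n, hn⟩ := seq_cover hd1 (t := -t) (by rw [hd0]; linarith)
        exact ⟨Sum.inr n, by linarith [hn.2], by linarith [hn.1]⟩)
  obtain ⟨M, hM⟩ := ((hGc i).isBounded).subset_closedBall 0
  refine ⟨M, fun t ht => ?_⟩
  have := hM (hi t ht)
  simpa using this

/-- One-sided version. -/
theorem bddAbove_of_no_tail {f : ℝ → Z} (hf : Continuous f) (hinj : Injective f) {P : Set Z}
    (hP : IsCompact P) (hPc : IsConnected P) (hPr : P ⊆ range f) (h1 : ∀ T, ∃ t ≥ T, f t ∉ P)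
    {T0 : ℝ} (hT0 : f T0 ∉ P) (hcl : IsClosed (f '' (Iic T0 ∩ f ⁻¹' P))) :
    ∃ M, ∀ t, f t ∈ P → t ≤ M := by
  obtain ⟨c, hc0, hc1, hc2⟩ := exists_seq h1 hT0
  let G : Option ℕ → Set ℝ := fun i => match i with
    | none => Iic T0
    | some n => Icc (c n) (c (n + 1))
  have hcross : ∀ m t, t ∈ Icc (c m) (c (m + 1)) → t ∈ Iic T0 → f t ∉ P := by
    intro m t h h'
    have h3 : c 0 ≤ c m := seq_mono hc1 (Nat.zero_le m)
    have : t = T0 := le_antisymm h' (by linarith [h.1])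
    rw [this]; exact hT0
  obtain ⟨i, hi⟩ := pieces hinj hP hPc hPr (G := G) (by
      rintro (_ | n)
      · exact hcl
      · exact closed_piece hf hP isCompact_Icc) (by
      rintro (_ | i) (_ | j) t hi hj ht
      · rfl
      · exact (hcross j t hj hi ht).elim
      · exact (hcross i t hi hj ht).elim
      · rw [seq_disj (q := fun t => f t ∉ P) hc1 hc2 hi hj (not_not.mpr ht)]) (by
      intro t _
      rcases le_total T0 t with h | h
      · obtain ⟨n, hn⟩ := seq_cover hc1 (t := t) (by rw [hc0]; exact h)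
        exact ⟨some n, hn⟩
      · exact ⟨none, h⟩)
  rcases i with _ | n
  · exact ⟨T0, hi⟩
  · exact ⟨c (n + 1), fun t ht => (hi t ht).2⟩

theorem mem_of_cluster {F : Filter ℝ} {u : ℝ → Z} {y : Z} (h : MapClusterPt y F u) {P : Set Z}
    (hP : IsClosed P) (he : ∀ᶠ a in F, u a ∈ P) : y ∈ P := by
  by_contra hy
  have := (mapClusterPt_iff_frequently.1 h) Pᶜ (hP.isOpen_compl.mem_nhds hy)
  obtain ⟨a, ha1, ha2⟩ := (this.and_eventually he).exists
  exact ha1 ha2

/-- Path lifting for an injective image of the line both of whose ends oscillate. -/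
theorem exists_lift {h : ℝ → Z} (hh : Continuous h) (hinj : Injective h) {y1 y2 : Z}
    (hne : y1 ≠ y2) (ht1 : MapClusterPt y1 atTop h) (ht2 : MapClusterPt y2 atTop h)
    (hb1 : MapClusterPt y1 atBot h) (hb2 : MapClusterPt y2 atBot h) {φ : ℝ → Z}
    (hφ : Continuous φ) (hr : ∀ t, φ t ∈ range h) :
    ∃ ψ : ℝ → ℝ, Continuous ψ ∧ ∀ t, h (ψ t) = φ t := by
  choose ψ hψ using hr
  refine ⟨ψ, ?_, hψ⟩
  rw [continuous_iff_continuousAt]
  intro t0
  obtain ⟨y, hy0, hyt, hyb⟩ : ∃ y, φ t0 ≠ y ∧ MapClusterPt y atTop h ∧ MapClusterPt y atBot h := by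
    by_cases hc : φ t0 = y1
    · exact ⟨y2, by rw [hc]; exact hne, ht2, hb2⟩
    · exact ⟨y1, hc, ht1, hb1⟩
  have hopen : IsOpen (φ ⁻¹' {y}ᶜ) := isOpen_compl_singleton.preimage hφ
  obtain ⟨δ, hδ, hball⟩ := Metric.isOpen_iff.mp hopen t0 hy0
  set J : Set ℝ := Icc (t0 - δ / 2) (t0 + δ / 2) with hJ
  have hJsub : J ⊆ φ ⁻¹' {y}ᶜ := by
    intro t ht
    apply hball
    rw [Metric.mem_ball, Real.dist_eq, abs_lt]
    constructor <;> linarith [ht.1, ht.2]
  have ht0J : t0 ∈ J := ⟨by linarith, by linarith⟩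
  set P : Set Z := φ '' J with hP
  have hPc : IsCompact P := isCompact_Icc.image hφ
  have hPcon : IsConnected P := by
    refine (isConnected_Icc (by linarith)).image _ hφ.continuousOn
  have hyP : y ∉ P := by
    rintro ⟨t, ht, hty⟩
    exact hJsub ht hty
  have hnt : ∀ T, ∃ t ≥ T, h t ∉ P := by
    intro T
    by_contra hcon
    push Not at hcon
    exact hyP (mem_of_cluster hyt hPc.isClosed ((eventually_ge_atTop T).mono hcon))
  have hnb : ∀ T, ∃ t ≤ T, h t ∉ P := by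
    intro T
    by_contra hcon
    push Not at hcon
    exact hyP (mem_of_cluster hyb hPc.isClosed ((eventually_le_atBot T).mono hcon))
  obtain ⟨M, hM⟩ := bounded_of_no_tails hh hinj hPc hPcon (by
    rintro _ ⟨t, -, rfl⟩
    exact ⟨ψ t, hψ t⟩) hnt hnb
  rw [ContinuousAt, tendsto_iff_ultrafilter]
  intro U hU
  have hJU : J ∈ (U : Filter ℝ) := hU (Icc_mem_nhds (by linarith) (by linarith))
  have hKU : Icc (-M) M ∈ ((U.map ψ : Ultrafilter ℝ) : Filter ℝ) := by
    rw [Ultrafilter.coe_map, mem_map]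
    filter_upwards [hJU] with t ht
    have := hM (ψ t) (by rw [hψ t]; exact ⟨t, ht, rfl⟩)
    exact abs_le.mp this
  obtain ⟨s, -, hs⟩ := (isCompact_Icc (a := -M) (b := M)).ultrafilter_le_nhds (U.map ψ)
    (by simpa using hKU)
  have h1 : Tendsto ψ U (𝓝 s) := by simpa [Tendsto] using hs
  have h2 : Tendsto (fun t => h (ψ t)) U (𝓝 (h s)) := (hh.tendsto s).comp h1
  have h3 : Tendsto (fun t => h (ψ t)) U (𝓝 (φ t0)) := by
    simp_rw [hψ]
    exact (hφ.tendsto t0).mono_left hU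
  have h4 : h s = φ t0 := tendsto_nhds_unique h2 h3
  rw [← hψ t0] at h4
  rw [← hinj h4]
  exact h1

end Q172.RealCurve
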