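import Mathlib

/-! # Sierpinski's theorem on countable decompositions of continua

The proofs are those of the starting file `Pool.Agent.S13625`, for countable index types. -/

set_option autoImplicit false

namespace Q172.RealCurve

open Set Topology Metric

section Continua

variable {X : Type*} [TopologicalSpace X] [T2Space X]


omit [T2Space X] in
/-- Components of closed sets are closed. -/
theorem isClosed_comp {A : Set X} (hA : IsClosed A) (x : X) :
    IsClosed (connectedComponentIn A x) := by
  by_cases hx : x ∈ A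
  · apply isClosed_of_closure_subset
    apply (isPreconnected_connectedComponentIn.closure).subset_connectedComponentIn
    · exact subset_closure (mem_connectedComponentIn hx)
    · exact closure_minimal (connectedComponentIn_subset _ _) hA
  · rw [connectedComponentIn_eq_empty hx]
    exact isClosed_empty

/-- Quasi-component argument: in a compact set `K`, if the component of `x` misses the closed set
`F`, there is a splitting of `K` into two disjoint closed sets, one containing `x` and missing `F`. -/
theorem exists_split_of_component_disjoint {K F : Set X} (hK : IsCompact K) {x : X} (hx : x ∈ K)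
    (hF : IsClosed F) (hd : Disjoint (connectedComponentIn K x) F) :
    ∃ P Q : Set X, IsClosed P ∧ IsClosed Q ∧ P ∪ Q = K ∧ Disjoint P Q ∧ x ∈ P ∧
      Disjoint P F := by
  have : CompactSpace K := isCompact_iff_compactSpace.1 hK
  have hcc : connectedComponentIn K x = Subtype.val '' connectedComponent (⟨x, hx⟩ : K) :=
    connectedComponentIn_eq_image hx
  let F' : Set K := Subtype.val ⁻¹' F
  have hF' : IsClosed F' := hF.preimage continuous_subtype_val
  have hint : F' ∩ (⋂ s : {s : Set K // IsClopen s ∧ (⟨x, hx⟩ : K) ∈ s}, (s : Set K)) = ∅ := by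
    rw [← connectedComponent_eq_iInter_isClopen]
    rw [Set.eq_empty_iff_forall_notMem]
    rintro y ⟨hyF, hyc⟩
    have : (y : X) ∈ connectedComponentIn K x := by
      rw [hcc]; exact ⟨y, hyc, rfl⟩
    exact Set.disjoint_left.1 hd this hyF
  obtain ⟨t, ht⟩ := hF'.isCompact.elim_finite_subfamily_closed
    (fun s : {s : Set K // IsClopen s ∧ (⟨x, hx⟩ : K) ∈ s} => (s : Set K))
    (fun s => s.2.1.1) hint
  let Z : Set K := ⋂ s ∈ t, (s : Set K)
  have hZ : IsClopen Z := isClopen_biInter_finset fun s _ => s.2.1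
  have hxZ : (⟨x, hx⟩ : K) ∈ Z := mem_iInter₂.2 fun s _ => s.2.2
  refine ⟨Subtype.val '' Z, Subtype.val '' Zᶜ, ?_, ?_, ?_, ?_, ⟨_, hxZ, rfl⟩, ?_⟩
  · exact (hZ.1.isCompact.image continuous_subtype_val).isClosed
  · exact (hZ.compl.1.isCompact.image continuous_subtype_val).isClosed
  · rw [← image_union, union_compl_self, image_univ, Subtype.range_coe]
  · rw [disjoint_image_iff Subtype.val_injective]
    exact disjoint_compl_right
  · rw [Set.disjoint_left]
    rintro _ ⟨y, hy, rfl⟩ hyF
    have : y ∈ F' ∩ ⋂ s ∈ t, (s : Set K) := ⟨hyF, hy⟩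
    rw [ht] at this
    exact this

/-- Boundary bumping: if `D` is a continuum, `A` closed and `D` not contained in `A`, then the component of
`D ∩ A` at any of its points meets the closure of `D \ A`. -/
theorem boundary_bumping {D A : Set X} (hD : IsCompact D) (hDc : IsPreconnected D)
    (hA : IsClosed A) {x : X} (hx : x ∈ D ∩ A) (hne : (D \ A).Nonempty) :
    (connectedComponentIn (D ∩ A) x ∩ closure (D \ A)).Nonempty := by
  by_contra hcon
  have hd : Disjoint (connectedComponentIn (D ∩ A) x) (closure (D \ A)) := by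
    rw [Set.disjoint_iff_inter_eq_empty]
    exact Set.not_nonempty_iff_eq_empty.1 hcon
  obtain ⟨P, Q, hP, hQ, hPQ, hdPQ, hxP, hPF⟩ :=
    exists_split_of_component_disjoint (hD.inter_right hA) hx isClosed_closure hd
  have h := isPreconnected_closed_iff.1 hDc P (Q ∪ closure (D \ A)) hP (hQ.union isClosed_closure)
    (by
      intro y hy
      by_cases hyA : y ∈ A
      · have : y ∈ P ∪ Q := by rw [hPQ]; exact ⟨hy, hyA⟩
        rcases this with h | h
        · exact Or.inl h
        · exact Or.inr (Or.inl h)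
      · exact Or.inr (Or.inr (subset_closure ⟨hy, hyA⟩)))
    ⟨x, hx.1, hxP⟩
    (by
      obtain ⟨y, hy⟩ := hne
      exact ⟨y, hy.1, Or.inr (subset_closure hy)⟩)
  obtain ⟨y, hyD, hyP, hyQ⟩ := h
  rcases hyQ with h | h
  · exact Set.disjoint_left.1 hdPQ hyP h
  · exact Set.disjoint_left.1 hPF hyP h


/-- The intersection of a nonempty chain of continua is a continuum. -/
theorem isConnected_sInter_chain {c : Set (Set X)} (hc : IsChain (· ⊆ ·) c) (hne : c.Nonempty)
    (h : ∀ s ∈ c, IsCompact s ∧ IsConnected s) :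
    IsCompact (⋂₀ c) ∧ IsConnected (⋂₀ c) := by
  have : Nonempty c := hne.to_subtype
  have hdir : Directed (· ⊇ ·) (fun s : c => (s : Set X)) := by
    intro a b
    rcases hc.total a.2 b.2 with h | h
    · exact ⟨a, subset_rfl, h⟩
    · exact ⟨b, h, subset_rfl⟩
  have hcl : ∀ s : c, IsClosed (s : Set X) := fun s => (h s s.2).1.isClosed
  have hcomp : IsCompact (⋂₀ c) := by
    obtain ⟨s, hs⟩ := hne
    exact (h s hs).1.of_isClosed_subset (isClosed_sInter fun t ht => (h t ht).1.isClosed)
      (sInter_subset_of_mem hs)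
  have hnonempty : (⋂₀ c).Nonempty := by
    rw [sInter_eq_iInter]
    exact IsCompact.nonempty_iInter_of_directed_nonempty_isCompact_isClosed _ hdir
      (fun s => (h s s.2).2.1) (fun s => (h s s.2).1) hcl
  refine ⟨hcomp, hnonempty, ?_⟩
  rw [isPreconnected_iff_subset_of_fully_disjoint_closed hcomp.isClosed]
  intro a b ha hb hab hdis
  -- separate the two compact pieces by disjoint open sets
  have ha' : IsCompact (a ∩ ⋂₀ c) := hcomp.inter_left ha
  have hb' : IsCompact (b ∩ ⋂₀ c) := hcomp.inter_left hb
  obtain ⟨u, v, hu, hv, hau, hbv, huv⟩ := SeparatedNhds.of_isCompact_isCompact ha' hb'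
    (hdis.mono inter_subset_left inter_subset_left)
  have hsub : ⋂₀ c ⊆ u ∪ v := by
    intro y hy
    rcases hab hy with h1 | h1
    · exact Or.inl (hau ⟨h1, hy⟩)
    · exact Or.inr (hbv ⟨h1, hy⟩)
  obtain ⟨s, hs⟩ : ∃ s : c, (s : Set X) ⊆ u ∪ v := by
    apply exists_subset_nhds_of_isCompact hdir (fun s => (h s s.2).1) 
    intro y hy
    rw [← sInter_eq_iInter] at hy
    exact (hu.union hv).mem_nhds (hsub hy)
  have hscon := (h s s.2).2
  have hcs : ⋂₀ c ⊆ s := sInter_subset_of_mem s.2
  rcases (isPreconnected_iff_subset_of_disjoint.1 hscon.2) u v hu hv hs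
    (by rw [huv.inter_eq]; simp) with h1 | h1
  · left
    intro y hy
    rcases hab hy with h2 | h2
    · exact h2
    · exact absurd (hbv ⟨h2, hy⟩) (Set.disjoint_left.1 huv (h1 (hcs hy)))
  · right
    intro y hy
    rcases hab hy with h2 | h2
    · exact absurd (h1 (hcs hy)) (Set.disjoint_left.1 huv (hau ⟨h2, hy⟩))
    · exact h2

/-- Sierpinski's theorem: a continuum contained in a disjoint countable union of sets which are closed in it
lies in one of them. -/
theorem sierpinski {ι : Type*} [Countable ι] [Nonempty ι] {K : Set X} (hK : IsCompact K)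
    (hKc : IsConnected K) {F : ι → Set X}
    (hF : ∀ n, IsClosed (F n)) (hdis : ∀ i j, i ≠ j → Disjoint (F i) (F j))
    (hcov : K ⊆ ⋃ n, F n) : ∃ n, K ⊆ F n := by
  by_contra hcon
  push Not at hcon
  obtain ⟨e, he⟩ := exists_surjective_nat ι
  -- the predicate
  let P : Set X → Prop := fun C => IsCompact C ∧ IsConnected C ∧ C ⊆ K ∧ ∀ n, ¬ C ⊆ F n
  have step : ∀ C, P C → ∀ n, ∃ C', P C' ∧ C' ⊆ C ∧ Disjoint C' (F n) := by
    rintro C ⟨hC, hCc, hCK, hCn⟩ n
    by_cases hdisj : Disjoint C (F n)
    · exact ⟨C, ⟨hC, hCc, hCK, hCn⟩, subset_rfl, hdisj⟩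
    -- pick a point of C outside F n, it lies in F m
    obtain ⟨x, hxC, hxn⟩ := not_subset.1 (hCn n)
    obtain ⟨m, hxm⟩ := mem_iUnion.1 (hcov (hCK hxC))
    have hmn : m ≠ n := by rintro rfl; exact hxn hxm
    have h1 : IsCompact (C ∩ F m) := hC.inter_right (hF m)
    have h2 : IsCompact (C ∩ F n) := hC.inter_right (hF n)
    obtain ⟨u, v, hu, hv, hmu, hnv, huv⟩ := SeparatedNhds.of_isCompact_isCompact h1 h2
      ((hdis m n hmn).mono inter_subset_right inter_subset_right)
    -- A = complement of v
    have hxv : x ∉ v := fun h => Set.disjoint_left.1 huv (hmu ⟨hxC, hxm⟩) h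
    have hne : (C \ vᶜ).Nonempty := by
      rw [Set.not_disjoint_iff] at hdisj
      obtain ⟨y, hyC, hyn⟩ := hdisj
      exact ⟨y, hyC, fun h => h (hnv ⟨hyC, hyn⟩)⟩
    have hxA : x ∈ C ∩ vᶜ := ⟨hxC, hxv⟩
    have hbb := boundary_bumping hC hCc.2 hv.isClosed_compl hxA hne
    obtain ⟨y, hy1, hy2⟩ := hbb
    refine ⟨connectedComponentIn (C ∩ vᶜ) x, ⟨?_, ?_, ?_, ?_⟩, ?_, ?_⟩
    · exact (hC.inter_right hv.isClosed_compl).of_isClosed_subset
        (isClosed_comp (hC.inter_right hv.isClosed_compl).isClosed x)
        (connectedComponentIn_subset _ _)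
    · exact isConnected_connectedComponentIn_iff.2 hxA
    · exact (connectedComponentIn_subset _ _).trans (inter_subset_left.trans hCK)
    · intro k hk
      have hxk : x ∈ F k := hk (mem_connectedComponentIn hxA)
      have hkm : k = m := by
        by_contra hne'
        exact Set.disjoint_left.1 (hdis k m hne') hxk hxm
      have hym : y ∈ F m := by rw [← hkm]; exact hk hy1
      have hyC : y ∈ C := (connectedComponentIn_subset _ _ hy1).1
      have hyu : y ∈ u := hmu ⟨hyC, hym⟩
      -- y in closure (C \ vᶜ) = closure (C ∩ v), u open nbhd of y disjoint from v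
      obtain ⟨z, hzu, hzC, hzv⟩ := mem_closure_iff.1 hy2 u hu hyu
      exact hzv (fun hzv' => Set.disjoint_left.1 huv hzu hzv')
    · exact (connectedComponentIn_subset _ _).trans inter_subset_left
    · rw [Set.disjoint_left]
      intro z hz hzn
      have := connectedComponentIn_subset _ _ hz
      exact this.2 (hnv ⟨this.1, hzn⟩)
  choose! f hf using step
  let C : ℕ → Set X := fun n => Nat.rec K (fun k C => f C (e k)) n
  have hC0 : P (C 0) := ⟨hK, hKc, subset_rfl, fun n h => by
    obtain ⟨y, hy, hyn⟩ := Set.not_subset.1 (hcon n)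
    exact hyn (h hy)⟩
  have hCP : ∀ n, P (C n) := by
    intro n
    induction n with
    | zero => exact hC0
    | succ n ih => exact (hf (C n) ih (e n)).1
  have hCs : ∀ n, C (n + 1) ⊆ C n := fun n => (hf (C n) (hCP n) (e n)).2.1
  have hCd : ∀ n, Disjoint (C (n + 1)) (F (e n)) := fun n => (hf (C n) (hCP n) (e n)).2.2
  have hne := IsCompact.nonempty_iInter_of_sequence_nonempty_isCompact_isClosed C hCs
    (fun n => (hCP n).2.1.1) hC0.1 (fun n => (hCP n).1.isClosed)
  obtain ⟨y, hy⟩ := hne
  rw [mem_iInter] at hy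
  obtain ⟨i, hi⟩ := mem_iUnion.1 (hcov (hy 0))
  obtain ⟨n, rfl⟩ := he i
  exact Set.disjoint_left.1 (hCd n) (hy (n + 1)) hi


end Continua

end Q172.RealCurve
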