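import Pool.Agent.Q172.RealCurve.Curve

/-! # The explicit curves are target curves -/

set_option autoImplicit false
set_option linter.unusedSectionVars false
set_option linter.unusedVariables false

namespace Q172.RealCurve

open Set Topology Filter Function

theorem ee_neg_one : ee (-1) = 1 := by
  have := ee_add_int 0 (-1)
  simpa [ee_zero] using this

theorem ee_fract (x : ℝ) : ee (Int.fract x) = ee x := by
  have := ee_add_int (Int.fract x) ⌊x⌋
  rw [Int.fract_add_floor] at this
  exact this.symm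

theorem hh_of_mid (N : ℕ) {r : ℝ} (h : r ∈ Icc (0 : ℝ) 1) : hh N r = (1, r, 1) := by
  simp only [hh, th_of_mid N h, rr_of_mid N h, max_eq_right h.2, ee_zero, div_one, ee_one]

theorem hh_of_nonpos (N : ℕ) {s : ℝ} (h : s ≤ 0) :
    hh N s = (ee (1 / (1 - s)), Real.sin (Real.pi * s) ^ 2, 1) := by
  have e1 := ee_add_int (1 / (1 - s) - 1) 1
  simp only [Int.cast_one, sub_add_cancel] at e1
  simp only [hh, th_of_nonpos N h, rr_of_nonpos N h, max_eq_right (by linarith : s ≤ 1),
    div_one, ee_one, e1]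

theorem sin_sq_sub_int (x : ℝ) (n : ℤ) : Real.sin (x - n * Real.pi) ^ 2 = Real.sin x ^ 2 := by
  rw [Real.sin_sub_int_mul_pi, mul_pow]
  have : ((-1 : ℝ) ^ n) ^ 2 = 1 := by
    rw [← zpow_natCast, ← zpow_mul, mul_comm, zpow_mul]
    simp
  rw [this, one_mul]

theorem hh_of_angle (N : ℕ) {y : ℝ} (h : y ∈ Ioc (0 : ℝ) 1) :
    hh N (1 - 1 / y) = (ee y, rho y, 1) := by
  have h0 : y ≠ 0 := h.1.ne'
  have h1 : (1 : ℝ) ≤ 1 / y := by rw [le_div_iff₀ h.1]; linarith [h.2]
  rw [hh_of_nonpos N (by linarith)]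
  have e1 : 1 / (1 - (1 - 1 / y)) = y := by field_simp; ring
  have e2 : Real.sin (Real.pi * (1 - 1 / y)) ^ 2 = rho y := by
    unfold rho
    have : Real.pi * (1 - 1 / y) = -(Real.pi / y - (1 : ℤ) * Real.pi) := by push_cast; ring
    rw [this, Real.sin_neg, neg_sq, sin_sq_sub_int]
  rw [e1, e2]

theorem tend_inv {α : Type*} {F : Filter α} {f : α → ℝ} (h : Tendsto f F atTop) :
    Tendsto (fun x => 1 / f x) F (𝓝 0) := by
  have := h.inv_tendsto_atTop
  simp only [one_div]
  exact this

theorem tendsto_ee_inv {F : Filter ℝ} (hF : F ≤ atTop) :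
    Tendsto (fun τ : ℝ => ee (1 / max τ 1)) F (𝓝 1) := by
  have h1 : Tendsto (fun τ : ℝ => 1 / max τ 1) atTop (𝓝 0) := by
    have h2 : Tendsto (fun τ : ℝ => max τ 1) atTop atTop :=
      tendsto_atTop_mono (fun τ => le_max_left τ 1) tendsto_id
    exact tend_inv h2
  have := ((continuous_ee.tendsto 0).comp h1).mono_left hF
  rw [ee_zero] at this
  exact this

theorem continuousAt_rho {y : ℝ} (hy : 0 < y) : ContinuousAt rho y := by
  unfold rho
  have : y ≠ 0 := hy.ne'
  fun_prop (disch := assumption)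

theorem tgt_hh {N : ℕ} (hN : 1 ≤ N) : Tgt (hh N) := by
  have hbot_sub : Om atBot (hh N) ⊆ hh N '' Icc 0 1 := by
    intro z hz
    obtain ⟨U, hU, hUz⟩ := mapClusterPt_iff_ultrafilter.1 hz
    have hle : ∀ᶠ τ in (U : Filter ℝ), τ ≤ 0 := hU (eventually_le_atBot 0)
    have h1 : Tendsto (fun τ => (hh N τ).1) U (𝓝 z.1) := (continuous_fst.tendsto z).comp hUz
    have h2 : Tendsto (fun τ => (hh N τ).2.1) U (𝓝 z.2.1) :=
      ((continuous_fst.comp continuous_snd).tendsto z).comp hUz
    have h3 : Tendsto (fun τ => (hh N τ).2.2) U (𝓝 z.2.2) :=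
      ((continuous_snd.comp continuous_snd).tendsto z).comp hUz
    have e1 : z.1 = 1 := by
      refine tendsto_nhds_unique h1 ?_
      have h4 : Tendsto (fun τ : ℝ => 1 / (1 - τ)) atBot (𝓝 0) := by
        have h5 : Tendsto (fun τ : ℝ => 1 - τ) atBot atTop := by
          have := tendsto_atTop_add_const_left atBot (1 : ℝ) tendsto_neg_atBot_atTop
          simpa [sub_eq_add_neg] using this
        exact tend_inv h5
      have h6 := ((continuous_ee.tendsto 0).comp h4).mono_left hU
      rw [ee_zero] at h6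
      refine h6.congr' ?_
      filter_upwards [hle] with τ hτ
      rw [hh_of_nonpos N hτ]; rfl
    have e3 : z.2.2 = 1 := by
      refine tendsto_nhds_unique h3 ?_
      refine tendsto_const_nhds.congr' ?_
      filter_upwards [hle] with τ hτ
      rw [hh_of_nonpos N hτ]
    have e2 : z.2.1 ∈ Icc (0 : ℝ) 1 := by
      refine isClosed_Icc.mem_of_tendsto h2 ?_
      filter_upwards [hle] with τ hτ
      rw [hh_of_nonpos N hτ]
      exact ⟨sq_nonneg _, Real.sin_sq_le_one _⟩
    refine ⟨z.2.1, e2, ?_⟩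
    rw [hh_of_mid N e2]
    ext
    · rw [e1]
    · rfl
    · rw [e3]
  have hbot_sup : hh N '' Icc 0 1 ⊆ Om atBot (hh N) := by
    rintro _ ⟨r, hr, rfl⟩
    -- a solution of `sin² (π α) = r`
    obtain ⟨α, hα⟩ : ∃ α : ℝ, Real.sin α ^ 2 = r := by
      refine ⟨Real.arcsin (Real.sqrt r), ?_⟩
      rw [Real.sin_arcsin (by linarith [Real.sqrt_nonneg r]) (by
        exact Real.sqrt_le_one.2 hr.2), Real.sq_sqrt hr.1]
    have ht : Tendsto (fun k : ℕ => α / Real.pi - k) atTop atBot := by
      have h1 : Tendsto (fun k : ℕ => -(k : ℝ)) atTop atBot :=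
        tendsto_neg_atTop_atBot.comp tendsto_natCast_atTop_atTop
      have := tendsto_atBot_add_const_left atTop (α / Real.pi) h1
      simpa [sub_eq_add_neg] using this
    refine MapClusterPt.of_comp ht (Tendsto.mapClusterPt ?_)
    rw [hh_of_mid N hr]
    have hev : ∀ᶠ k : ℕ in atTop, α / Real.pi - k ≤ 0 := ht.eventually_le_atBot 0
    have h4 : Tendsto (fun k : ℕ => ((ee (1 / (1 - (α / Real.pi - k))), r, (1 : ℂ)) : ℂ × ℝ × ℂ))
        atTop (𝓝 (1, r, 1)) := by
      refine Tendsto.prodMk_nhds ?_ tendsto_const_nhds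
      have h5 : Tendsto (fun k : ℕ => 1 - (α / Real.pi - k)) atTop atTop := by
        have := tendsto_atTop_add_const_left atTop (1 : ℝ) (tendsto_neg_atBot_atTop.comp ht)
        simpa [sub_eq_add_neg] using this
      have h6 : Tendsto (fun k : ℕ => 1 / (1 - (α / Real.pi - k))) atTop (𝓝 0) := by
        exact tend_inv h5
      have := (continuous_ee.tendsto 0).comp h6
      rw [ee_zero] at this
      exact this
    refine h4.congr' ?_
    filter_upwards [hev] with k hk
    simp only [comp_apply]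
    rw [hh_of_nonpos N hk]
    have : Real.pi * (α / Real.pi - k) = α - (k : ℤ) * Real.pi := by
      field_simp
      push_cast
      ring
    rw [this, sin_sq_sub_int, hα]
  have htop_neg : ∀ s < 0, hh N s ∈ Om atTop (hh N) := by
    intro s hs
    set y := 1 / (1 - s) with hy
    have hy0 : 0 < y := by
      rw [hy]
      have : 0 < 1 - s := by linarith
      positivity
    have hy1 : y < 1 := by rw [hy, div_lt_one (by linarith)]; linarith
    have hsy : s = 1 - 1 / y := by rw [hy, one_div_one_div]; ring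
    rw [hsy, hh_of_angle N ⟨hy0, hy1.le⟩]
    have hNpos : (1 : ℝ) ≤ N := by exact_mod_cast hN
    -- times at which the horizontal coordinate is `y`
    let τ : ℕ → ℝ := fun k => 1 + 2 * k + Real.arccos (1 - 2 * y / N) / Real.pi
    have hx : ∀ k, xx N (τ k) = y := by
      intro k
      unfold xx
      have h1 : Real.pi * (τ k - 1) = Real.arccos (1 - 2 * y / N) + k * (2 * Real.pi) := by
        simp only [τ]; field_simp; ring
      have h2 : 0 ≤ 2 * y / N := by positivity
      have h3 : 2 * y / N ≤ 2 := by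
        rw [div_le_iff₀ (by linarith)]; nlinarith
      rw [h1, Real.cos_add_nat_mul_two_pi, Real.cos_arccos (by linarith) (by linarith)]
      field_simp
      ring
    have harc : 0 ≤ Real.arccos (1 - 2 * y / N) / Real.pi :=
      div_nonneg (Real.arccos_nonneg _) Real.pi_pos.le
    have hτ : Tendsto τ atTop atTop := by
      refine tendsto_atTop_mono (f := fun k : ℕ => (k : ℝ)) (fun k => ?_)
        tendsto_natCast_atTop_atTop
      simp only [τ]
      have : (0 : ℝ) ≤ k := Nat.cast_nonneg k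
      linarith
    refine MapClusterPt.of_comp hτ (Tendsto.mapClusterPt ?_)
    have hev1 : ∀ᶠ k in atTop, 1 ≤ τ k := hτ.eventually_ge_atTop 1
    have hev2 : ∀ᶠ k in atTop, 1 / y ≤ τ k := hτ.eventually_ge_atTop (1 / y)
    have h4 : Tendsto (fun k : ℕ => ((ee y, rho y + (1 - rho y) / τ k,
        ee (1 / max (τ k) 1)) : ℂ × ℝ × ℂ)) atTop (𝓝 (ee y, rho y, 1)) := by
      refine Tendsto.prodMk_nhds tendsto_const_nhds (Tendsto.prodMk_nhds ?_ ?_)
      · have h5 : Tendsto (fun k => (1 - rho y) / τ k) atTop (𝓝 0) :=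
          hτ.const_div_atTop _
        simpa using h5.const_add (rho y)
      · exact (tendsto_ee_inv le_rfl).comp hτ
    refine h4.congr' ?_
    filter_upwards [hev1, hev2] with k hk1 hk2
    have h6 : pr N (τ k) = rho y := by
      unfold pr
      rw [hx k, Int.fract_eq_self.2 ⟨hy0.le, hy1⟩, trunc_eq hk1]
      rw [div_le_iff₀ (by linarith)]
      rw [div_le_iff₀ hy0] at hk2
      linarith
    simp only [comp_apply, hh, th_of_ge N hk1, rr_of_ge N hk1, hx k]
    unfold rp
    rw [h6]
  have hsub : Om atBot (hh N) ⊆ Om atTop (hh N) := by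
    refine Om_subset (isClosed_Om _ _) ?_
    filter_upwards [eventually_lt_atBot (0 : ℝ)] with s hs
    exact htop_neg s hs
  refine ⟨continuous_hh N, inj_hh N, ?_, ?_, hbot_sub, hbot_sup⟩
  · intro z hz
    obtain ⟨U, hU, hUz⟩ := mapClusterPt_iff_ultrafilter.1 hz
    have hge : ∀ᶠ τ in (U : Filter ℝ), 1 ≤ τ := hU (eventually_ge_atTop 1)
    have h1 : Tendsto (fun τ => (hh N τ).1) U (𝓝 z.1) := (continuous_fst.tendsto z).comp hUz
    have h2 : Tendsto (fun τ => (hh N τ).2.1) U (𝓝 z.2.1) :=
      ((continuous_fst.comp continuous_snd).tendsto z).comp hUz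
    have h3 : Tendsto (fun τ => (hh N τ).2.2) U (𝓝 z.2.2) :=
      ((continuous_snd.comp continuous_snd).tendsto z).comp hUz
    have e3 : z.2.2 = 1 := tendsto_nhds_unique h3 (tendsto_ee_inv hU)
    have hfr : Icc (0 : ℝ) 1 ∈ ((U.map fun τ => Int.fract (xx N τ) : Ultrafilter ℝ) : Filter ℝ) := by
      rw [Ultrafilter.coe_map, mem_map]
      exact univ_mem' fun τ => ⟨Int.fract_nonneg _, (Int.fract_lt_one _).le⟩
    obtain ⟨y, hy, hy'⟩ := (isCompact_Icc (a := (0 : ℝ)) (b := 1)).ultrafilter_le_nhds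
      (U.map fun τ => Int.fract (xx N τ)) (le_principal_iff.2 hfr)
    have hyt : Tendsto (fun τ => Int.fract (xx N τ)) U (𝓝 y) := by simpa [Tendsto] using hy'
    have e1 : z.1 = ee y := by
      refine tendsto_nhds_unique h1 ?_
      refine ((continuous_ee.tendsto y).comp hyt).congr' ?_
      filter_upwards [hge] with τ hτ
      simp only [comp_apply, ee_fract, hh, th_of_ge N hτ]
    rcases eq_or_lt_of_le hy.1 with h0 | h0
    · -- the bar
      rw [← h0, ee_zero] at e1
      have e2 : z.2.1 ∈ Icc (0 : ℝ) 1 := by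
        refine isClosed_Icc.mem_of_tendsto h2 ?_
        filter_upwards [hge] with τ hτ
        simp only [hh, rr_of_ge N hτ]
        exact rp_mem N hτ
      refine ⟨z.2.1, e2.2, ?_⟩
      rw [hh_of_mid N e2]
      ext
      · rw [e1]
      · rfl
      · rw [e3]
    · have hinv : Tendsto (fun τ : ℝ => 1 / τ) U (𝓝 0) := by
        have : Tendsto (fun τ : ℝ => 1 / τ) atTop (𝓝 0) := by
          simpa using tendsto_inv_atTop_zero (𝕜 := ℝ)
        exact this.mono_left hU
      have hprt : Tendsto (fun τ => pr N τ) U (𝓝 (rho y)) := by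
        refine ((continuousAt_rho h0).tendsto.comp hyt).congr' ?_
        have hlt : ∀ᶠ τ in (U : Filter ℝ), 1 / τ < y / 2 :=
          hinv.eventually_lt_const (by linarith)
        have hgt : ∀ᶠ τ in (U : Filter ℝ), y / 2 < Int.fract (xx N τ) :=
          hyt.eventually_const_lt (by linarith)
        filter_upwards [hge, hlt, hgt] with τ hτ h4 h5
        simp only [comp_apply]
        unfold pr
        rw [trunc_eq hτ (by linarith)]
      have e2 : z.2.1 = rho y := by
        refine tendsto_nhds_unique h2 ?_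
        have h4 : Tendsto (fun τ => pr N τ + (1 - pr N τ) * (1 / τ)) U
            (𝓝 (rho y + (1 - rho y) * 0)) :=
          hprt.add ((tendsto_const_nhds.sub hprt).mul hinv)
        rw [mul_zero, add_zero] at h4
        refine h4.congr' ?_
        filter_upwards [hge] with τ hτ
        simp only [hh, rr_of_ge N hτ]
        unfold rp
        rw [div_eq_mul_one_div (1 - pr N τ) τ]
      have h5 : (1 : ℝ) ≤ 1 / y := by rw [le_div_iff₀ h0]; linarith [hy.2]
      refine ⟨1 - 1 / y, by show 1 - 1 / y ≤ 1; linarith, ?_⟩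
      rw [hh_of_angle N ⟨h0, hy.2⟩]
      ext
      · rw [e1]
      · rw [e2]
      · rw [e3]
  · rintro _ ⟨s, hs, rfl⟩
    rcases lt_or_ge s 0 with h | h
    · exact htop_neg s h
    · exact hsub (hbot_sup ⟨s, ⟨h, hs⟩, rfl⟩)

theorem ang_hh {N : ℕ} (hN : 1 ≤ N) : Ang (hh N) (fun z => z.1) (th N) N := by
  refine ⟨continuous_fst, continuous_th N, fun t => rfl, fun t ht => th_of_mid N ht, ?_, ?_, ?_,
    ?_, ?_⟩
  · have h5 : Tendsto (fun τ : ℝ => 1 - τ) atBot atTop := by
      have := tendsto_atTop_add_const_left atBot (1 : ℝ) tendsto_neg_atBot_atTop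
      simpa [sub_eq_add_neg] using this
    have h4 : Tendsto (fun τ : ℝ => 1 / (1 - τ)) atBot (𝓝 0) := by
      exact tend_inv h5
    have h6 := h4.sub_const 1
    rw [zero_sub] at h6
    refine h6.congr' ?_
    filter_upwards [eventually_le_atBot (0 : ℝ)] with τ hτ
    rw [th_of_nonpos N hτ]
  · intro t ht
    unfold th
    rw [max_eq_right ht, xx_one, add_zero]
    have h : 1 ≤ 1 - min t 0 := by linarith [min_le_right t 0]
    have h1 : 0 < 1 / (1 - min t 0) := by positivity
    have h2 : 1 / (1 - min t 0) ≤ 1 := by rw [div_le_one (by linarith)]; exact h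
    exact ⟨by linarith, by linarith⟩
  · intro t ht
    rw [th_of_ge N ht]
    exact xx_mem N t
  · intro T
    obtain ⟨k, hk⟩ := exists_nat_ge T
    have h0 : (0 : ℝ) ≤ k := Nat.cast_nonneg k
    refine ⟨1 + 2 * k, by linarith, ?_⟩
    rw [th_of_ge N (by linarith), xx_odd]
  · intro T
    obtain ⟨k, hk⟩ := exists_nat_ge T
    have h0 : (0 : ℝ) ≤ k := Nat.cast_nonneg k
    refine ⟨2 + 2 * k, by linarith, ?_⟩
    rw [th_of_ge N (by linarith), xx_even]

end Q172.RealCurve
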