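import Pool.Agent.Q172.RealCurve.Ends

/-! # Winding of the positive end -/

set_option autoImplicit false
set_option linter.unusedSectionVars false
set_option linter.unusedVariables false

namespace Q172.RealCurve

open Set Topology Filter Function

variable {X : Type*} [TopologicalSpace X] [T2Space X] [CompactSpace X]
  {Z : Type*} [TopologicalSpace Z] [T2Space Z]

/-- The angular data of a target curve. -/
structure Ang (h : ℝ → Z) (u : Z → ℂ) (θ : ℝ → ℝ) (N : ℝ) : Prop where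
  ucont : Continuous u
  θcont : Continuous θ
  uθ : ∀ t, u (h t) = Complex.exp ((2 * Real.pi * θ t : ℝ) * Complex.I)
  θbar : ∀ t ∈ Icc (0 : ℝ) 1, θ t = 0
  θbot : Tendsto θ atBot (𝓝 (-1))
  θneg : ∀ t ≤ 1, θ t ∈ Icc (-1 : ℝ) 0
  θpos : ∀ t ≥ 1, θ t ∈ Icc (0 : ℝ) N
  θzero : ∀ T, ∃ t ≥ T, θ t = 0
  θN : ∀ T, ∃ t ≥ T, θ t = N

/-- The difference of the two lifted angles is continuous on the cluster set. -/
theorem diff_continuousOn {f : ℝ → X} (hf : Continuous f) (hinj : Injective f)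
    (hsurj : Surjective f) (hup : Up f) {D : ℝ → ℝ} (hD : Continuous D)
    (hD0 : Tendsto D atBot (𝓝 0)) (hDb : ∀ a, f a ∈ Om atBot f → D a = 0) {k : X → ℝ}
    (hk : ∀ t, f (k t) = t) : ContinuousOn (D ∘ k) (Om atTop f) := by
  obtain ⟨M', hM'⟩ := up_bddAbove hf hinj hsurj hup
  intro x hx
  rw [ContinuousWithinAt, tendsto_iff_ultrafilter]
  intro U hU
  set V : Ultrafilter ℝ := U.map k with hV
  have hfV : Tendsto f V (𝓝 x) := by
    have h1 : Tendsto (f ∘ k) U (𝓝 x) := by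
      have : f ∘ k = id := funext hk
      rw [this]
      exact hU.trans nhdsWithin_le_nhds
    simpa [Tendsto, hV, Filter.map_map] using h1
  have hOmU : Om atTop f ∈ (U : Filter X) := hU self_mem_nhdsWithin
  have hV1 : Iic M' ∈ (V : Filter ℝ) := by
    rw [hV, Ultrafilter.coe_map, mem_map]
    filter_upwards [hOmU] with y hy
    exact hM' (k y) (by rw [hk]; exact hy)
  suffices h : Tendsto D V (𝓝 (D (k x))) by
    simpa [Tendsto, hV, Filter.map_map] using h
  by_cases hc : ∃ T, Ici T ∈ (V : Filter ℝ)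
  · obtain ⟨T, hT⟩ := hc
    have h2 : Icc T M' ∈ (V : Filter ℝ) := inter_mem hT hV1
    obtain ⟨s, -, hs⟩ := (isCompact_Icc (a := T) (b := M')).ultrafilter_le_nhds V (by simpa using h2)
    have h3 : Tendsto f V (𝓝 (f s)) := (hf.tendsto s).mono_left hs
    have h4 : f s = x := tendsto_nhds_unique h3 hfV
    have h5 : s = k x := hinj (by rw [h4, hk])
    rw [← h5]
    exact (hD.tendsto s).mono_left hs
  · push Not at hc
    have hVb : (V : Filter ℝ) ≤ atBot := by
      intro s hs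
      obtain ⟨T, hT⟩ := mem_atBot_sets.1 hs
      have h6 : (Ici T)ᶜ ∈ (V : Filter ℝ) := by
        rw [Ultrafilter.mem_coe, Ultrafilter.compl_mem_iff_notMem]
        exact hc T
      exact mem_of_superset h6 fun t ht => hT t (not_le.1 (fun h => ht h)).le
    have hxb : x ∈ Om atBot f := mapClusterPt_iff_ultrafilter.2 ⟨V, hVb, hfV⟩
    rw [hDb (k x) (by rw [hk]; exact hxb)]
    exact hD0.mono_left hVb

/-- No curve with a big positive end can be mapped onto two target curves whose winding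
oscillations differ a lot. -/
theorem no_common_aux {f : ℝ → X} (hf : Continuous f) (hinj : Injective f) (hsurj : Surjective f)
    (hup : Up f) {g₁ g₂ : X → Z} (hg₁ : Continuous g₁) (hg₂ : Continuous g₂) {h₁ h₂ : ℝ → Z}
    (T₁ : Tgt h₁) (T₂ : Tgt h₂) (hr₁ : range g₁ = range h₁) (hr₂ : range g₂ = range h₂)
    {u₁ u₂ : Z → ℂ} {θ₁ θ₂ : ℝ → ℝ} {N₁ N₂ : ℝ} (A₁ : Ang h₁ u₁ θ₁ N₁) (A₂ : Ang h₂ u₂ θ₂ N₂)
    (hN : N₁ + 3 ≤ N₂) : False := by
  obtain ⟨ψ₁, hψ₁, hψ₁', htop₁, hbot₁, hle₁, hbar₁⟩ := ends hf hinj hsurj hup hg₁ T₁ hr₁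
  obtain ⟨ψ₂, hψ₂, hψ₂', htop₂, hbot₂, hle₂, hbar₂⟩ := ends hf hinj hsurj hup hg₂ T₂ hr₂
  set D : ℝ → ℝ := fun t => θ₁ (ψ₁ t) - θ₂ (ψ₂ t) with hDdef
  have hD : Continuous D := (A₁.θcont.comp hψ₁).sub (A₂.θcont.comp hψ₂)
  have hD0 : Tendsto D atBot (𝓝 0) := by
    have := (A₁.θbot.comp hbot₁).sub (A₂.θbot.comp hbot₂)
    simpa using this
  have hDb : ∀ a, f a ∈ Om atBot f → D a = 0 := by
    intro a ha
    simp only [hDdef, A₁.θbar _ (hbar₁ a ha), A₂.θbar _ (hbar₂ a ha), sub_zero]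
  obtain ⟨k, hk⟩ : ∃ k : X → ℝ, ∀ x, f (k x) = x := ⟨fun x => (hsurj x).choose,
    fun x => (hsurj x).choose_spec⟩
  have hcont := diff_continuousOn hf hinj hsurj hup hD hD0 hDb hk
  have hDle : ∀ a, f a ∈ Om atTop f → |D a| ≤ 1 := by
    intro a ha
    have h1 := A₁.θneg _ (hle₁ a ha)
    have h2 := A₂.θneg _ (hle₂ a ha)
    rw [abs_le]
    constructor
    · simp only [hDdef]; linarith [h1.1, h2.2]
    · simp only [hDdef]; linarith [h1.2, h2.1]
  -- extend
  obtain ⟨F, hF⟩ := ContinuousMap.exists_restrict_eq (isClosed_Om atTop f)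
    (⟨_, hcont.domRestrict⟩ : C(Om atTop f, ℝ))
  have hF' : ∀ a, f a ∈ Om atTop f → F (f a) = D a := by
    intro a ha
    have h1 := congrArg (fun G : C(Om atTop f, ℝ) => G ⟨f a, ha⟩) hF
    simp only [ContinuousMap.restrict_apply, ContinuousMap.coe_mk, Set.domRestrict_apply,
      comp_apply] at h1
    rw [h1, hinj (hk (f a))]
  set E : X → ℂ := fun x => u₁ (g₁ x) * (starRingEnd ℂ) (u₂ (g₂ x)) *
    Complex.exp ((-(2 * Real.pi * F x) : ℝ) * Complex.I) with hE
  have hEc : Continuous E := by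
    have h1 := A₁.ucont.comp hg₁
    have h2 := A₂.ucont.comp hg₂
    have h3 : Continuous fun x => u₁ (g₁ x) := h1
    have h4 : Continuous fun x => u₂ (g₂ x) := h2
    have h5 := F.continuous
    exact (h3.mul (Complex.continuous_conj.comp h4)).mul (by fun_prop)
  have hEt : ∀ t, E (f t) = Complex.exp ((2 * Real.pi * (D t - F (f t)) : ℝ) * Complex.I) := by
    intro t
    simp only [hE, ← hψ₁', ← hψ₂', A₁.uθ, A₂.uθ]
    rw [← Complex.exp_conj, ← Complex.exp_add, ← Complex.exp_add]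
    congr 1
    simp only [map_mul, Complex.conj_ofReal, Complex.conj_I, hDdef]
    push_cast
    ring
  have hVopen : IsOpen {x : X | |F x| < 11 / 10 ∧ ‖E x - 1‖ < 1} :=
    (isOpen_lt (F.continuous.abs) continuous_const).inter
      (isOpen_lt (hEc.sub continuous_const).norm continuous_const)
  have hOmV : Om atTop f ⊆ {x : X | |F x| < 11 / 10 ∧ ‖E x - 1‖ < 1} := by
    intro x hx
    have hx' : f (k x) ∈ Om atTop f := by rw [hk]; exact hx
    have h1 := hF' (k x) hx'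
    rw [← hk x]
    refine ⟨?_, ?_⟩
    · show |F (f (k x))| < 11 / 10
      rw [h1]
      exact (hDle _ hx').trans_lt (by norm_num)
    · show ‖E (f (k x)) - 1‖ < 1
      rw [hEt, h1]
      simp
  obtain ⟨T0, hT0⟩ := eventually_atTop.1 (eventually_mem hVopen hOmV)
  set m : ℝ → ℝ := fun t => D t - F (f t) with hm
  have hmc : Continuous m := hD.sub (F.continuous.comp hf)
  have hcos : ∀ t ≥ T0, 0 < Real.cos (2 * Real.pi * m t) := by
    intro t ht
    have h1 := (hT0 t ht).2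
    rw [hEt] at h1
    have h2 : |(Complex.exp ((2 * Real.pi * (D t - F (f t)) : ℝ) * Complex.I) - 1).re| < 1 :=
      (Complex.abs_re_le_norm _).trans_lt h1
    rw [Complex.sub_re, Complex.exp_ofReal_mul_I_re, Complex.one_re, abs_lt] at h2
    show 0 < Real.cos (2 * Real.pi * (D t - F (f t)))
    linarith [h2.1]
  have hmdiff : ∀ s ≥ T0, ∀ t ≥ T0, m t < m s + 1 / 2 := by
    intro s hs t ht
    by_contra hcon
    push Not at hcon
    have hiv : m s + 1 / 2 ∈ m '' Ici T0 :=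
      isPreconnected_Ici.intermediate_value (s := Ici T0) hs ht
        hmc.continuousOn ⟨by linarith, hcon⟩
    obtain ⟨w, hw1, hw2⟩ := hiv
    have h1 := hcos w hw1
    have h2 := hcos s hs
    rw [hw2] at h1
    have h3 : 2 * Real.pi * (m s + 1 / 2) = 2 * Real.pi * m s + Real.pi := by ring
    rw [h3, Real.cos_add_pi] at h1
    linarith
  -- contradiction
  obtain ⟨T1, hT1⟩ := eventually_atTop.1 (htop₁.eventually_ge_atTop 1)
  set T := max T0 T1 with hT
  have hcover : Ici (ψ₂ T) ⊆ ψ₂ '' Ici T := by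
    refine cover_up hψ₂ isPreconnected_Ici self_mem_Ici (fun b => ?_)
    obtain ⟨t, ht1, ht2⟩ := ((htop₂.eventually_ge_atTop b).and (eventually_ge_atTop T)).exists
    exact ⟨t, ht2, ht1⟩
  obtain ⟨a, ha, ha'⟩ := A₂.θzero (ψ₂ T)
  obtain ⟨b, hb, hb'⟩ := A₂.θN (ψ₂ T)
  obtain ⟨s, hs, rfl⟩ := hcover ha
  obtain ⟨t, ht, rfl⟩ := hcover hb
  have hs0 : T0 ≤ s := (le_max_left _ _).trans hs
  have ht0 : T0 ≤ t := (le_max_left _ _).trans ht
  have h1 := A₁.θpos _ (hT1 s ((le_max_right _ _).trans hs))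
  have h2 := A₁.θpos _ (hT1 t ((le_max_right _ _).trans ht))
  have h3 := hmdiff t ht0 s hs0
  have h4 := (abs_lt.1 (hT0 s hs0).1)
  have h5 := (abs_lt.1 (hT0 t ht0).1)
  simp only [hm, hDdef, ha', hb'] at h3
  linarith [h1.1, h1.2, h2.1, h2.2, h4.1, h4.2, h5.1, h5.2]

/-- No injective continuous image of the line can be mapped onto two target curves whose winding
oscillations differ a lot. -/
theorem no_common {f : ℝ → X} (hf : Continuous f) (hinj : Injective f) (hsurj : Surjective f)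
    {g₁ g₂ : X → Z} (hg₁ : Continuous g₁) (hg₂ : Continuous g₂) {h₁ h₂ : ℝ → Z}
    (T₁ : Tgt h₁) (T₂ : Tgt h₂) (hr₁ : range g₁ = range h₁) (hr₂ : range g₂ = range h₂)
    {u₁ u₂ : Z → ℂ} {θ₁ θ₂ : ℝ → ℝ} {N₁ N₂ : ℝ} (A₁ : Ang h₁ u₁ θ₁ N₁) (A₂ : Ang h₂ u₂ θ₂ N₂)
    (hN : N₁ + 3 ≤ N₂) : False := by
  rcases up_or_up_neg hf hinj hsurj hg₁ T₁ hr₁ with h | h
  · exact no_common_aux hf hinj hsurj h hg₁ hg₂ T₁ T₂ hr₁ hr₂ A₁ A₂ hN
  · exact no_common_aux (hf.comp continuous_neg) (hinj.comp neg_injective)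
      (hsurj.comp neg_surjective) h hg₁ hg₂ T₁ T₂ hr₁ hr₂ A₁ A₂ hN

end Q172.RealCurve
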